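import Pool.Agent.Q255.TQ.Stm
import Pool.Agent.Q162.MB.LBM

set_option autoImplicit false

/-!
# Project TQ: lower bound for `B_k(N)`
-/

namespace Pool.Agent.Q251.TQ

open Finset Filter Topology

/-! ### the number of tuples with product `m²` -/

/-- multiplicity of `i` in a pair -/
def mlt {k : ℕ} (x : Fin k × Fin k) (i : Fin k) : ℕ :=
  (if x.1 = i then 1 else 0) + (if x.2 = i then 1 else 0)

theorem mlt_sum {k : ℕ} (x : Fin k × Fin k) : ∑ i, mlt x i = 2 := by
  unfold mlt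
  rw [sum_add_distrib, sum_ite_eq, sum_ite_eq]
  simp

theorem mlt_inj {k : ℕ} (x y : Fin k × Fin k) (hx : x.1 ≤ x.2) (hy : y.1 ≤ y.2)
    (h : ∀ i, mlt x i = mlt y i) : x = y := by
  obtain ⟨a, b⟩ := x
  obtain ⟨c, d⟩ := y
  simp only at hx hy
  have h1 := h a
  have h2 := h b
  have h3 := h c
  simp only [mlt, if_true] at h1 h2 h3
  rcases lt_trichotomy a c with hac | hac | hac
  · exfalso
    have e1 : ¬ c = a := fun e => absurd e hac.ne'
    have e2 : ¬ d = a := fun e => absurd e (lt_of_lt_of_le hac hy).ne'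
    rw [if_neg e1, if_neg e2] at h1
    omega
  · subst hac
    have h4 : 1 = (if d = b then 1 else 0) := by omega
    by_cases e : d = b
    · rw [e]
    · rw [if_neg e] at h4
      omega
  · exfalso
    have e1 : ¬ a = c := fun e => absurd e hac.ne'
    have e2 : ¬ b = c := fun e => absurd e (lt_of_lt_of_le hac hx).ne'
    rw [if_neg e1, if_neg e2] at h3
    omega

/-- the ordered pairs -/
def prs (k : ℕ) : Finset (Fin k × Fin k) := univ.filter fun x => x.1 ≤ x.2

theorem prs_card (k : ℕ) : (prs k).card = k * (k + 1) / 2 := by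
  have h1 : (prs k).card = ∑ j : Fin k, ((j : ℕ) + 1) := by
    unfold prs
    rw [card_filter, ← univ_product_univ, sum_product_right]
    refine sum_congr rfl fun j _ => ?_
    rw [← card_filter]
    have : (univ.filter fun i : Fin k => i ≤ j) = Iic j := by
      ext i; simp
    rw [this, Fin.card_Iic]
  rw [h1, Fin.sum_univ_eq_sum_range (fun j => j + 1) k]
  have h2 := Finset.sum_range_id_mul_two (k + 1)
  rw [sum_range_succ'] at h2
  simp only [add_zero, Nat.add_sub_cancel] at h2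
  have h3 : k * (k + 1) = (∑ j ∈ range k, (j + 1)) * 2 := by rw [h2]; ring
  rw [h3, Nat.mul_div_cancel _ (by norm_num)]

/-- the tuple of a choice of pairs -/
def tup' {k : ℕ} (m : ℕ) (φ : m.primeFactors → Fin k × Fin k) (i : Fin k) : ℕ :=
  ∏ p : m.primeFactors, (p : ℕ) ^ mlt (φ p) i

theorem tup'_prod {k : ℕ} (m : ℕ) (hm : Squarefree m) (φ : m.primeFactors → Fin k × Fin k) :
    ∏ i, tup' m φ i = m ^ 2 := by
  unfold tup'
  rw [Finset.prod_comm]
  have h1 : ∀ p : m.primeFactors, ∏ i, (p : ℕ) ^ mlt (φ p) i = (p : ℕ) ^ 2 := by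
    intro p
    rw [prod_pow_eq_pow_sum, mlt_sum]
  rw [prod_congr rfl fun p _ => h1 p, prod_pow]
  congr 1
  rw [prod_coe_sort m.primeFactors (fun p => p)]
  exact Nat.prod_primeFactors_of_squarefree hm

theorem tup'_fact {k : ℕ} (m : ℕ) (φ : m.primeFactors → Fin k × Fin k) (i : Fin k)
    (p : m.primeFactors) : (tup' m φ i).factorization p = mlt (φ p) i := by
  classical
  unfold tup'
  rw [Nat.factorization_prod_apply]
  · rw [sum_eq_single p]
    · rw [(Nat.prime_of_mem_primeFactors p.2).factorization_pow, Finsupp.single_eq_same]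
    · intro q _ hq
      rw [(Nat.prime_of_mem_primeFactors q.2).factorization_pow, Finsupp.single_eq_of_ne]
      intro h
      exact hq (Subtype.ext h.symm)
    · intro h
      exact absurd (mem_univ p) h
  · intro q _
    exact pow_ne_zero _ (Nat.prime_of_mem_primeFactors q.2).ne_zero

theorem tup_card (k N m : ℕ) (hm : Squarefree m) (hN : m ^ 2 ≤ N) :
    (k * (k + 1) / 2) ^ m.primeFactors.card ≤
      ((Pool.Agent.Q255.TQ.Tu k N).filter (fun t => ∏ i, t i = m ^ 2)).card := by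
  classical
  have h1 : (Fintype.piFinset fun _ : m.primeFactors => prs k).card =
      (k * (k + 1) / 2) ^ m.primeFactors.card := by
    rw [Fintype.card_piFinset, prod_const, prs_card, card_univ, Fintype.card_coe]
  rw [← h1]
  refine card_le_card_of_injOn (fun φ => tup' m φ) ?_ ?_
  · intro φ _
    have hprod := tup'_prod m hm φ
    have hm1 : 1 ≤ m ^ 2 := Nat.one_le_iff_ne_zero.2 (pow_ne_zero _ hm.ne_zero)
    simp only [coe_filter, Set.mem_ofPred_eq]
    refine ⟨Fintype.mem_piFinset.2 fun i => ?_, hprod⟩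
    have hd : tup' m φ i ∣ m ^ 2 := by
      rw [← hprod]
      exact dvd_prod_of_mem _ (mem_univ i)
    rw [mem_Icc]
    exact ⟨Nat.pos_of_dvd_of_pos hd hm1, (Nat.le_of_dvd hm1 hd).trans hN⟩
  · intro φ hφ ψ hψ h
    funext p
    have hφ' := Fintype.mem_piFinset.1 (mem_coe.1 hφ) p
    have hψ' := Fintype.mem_piFinset.1 (mem_coe.1 hψ) p
    unfold prs at hφ' hψ'
    refine mlt_inj _ _ (mem_filter.1 hφ').2 (mem_filter.1 hψ').2 fun i => ?_
    rw [← tup'_fact m φ i p, ← tup'_fact m ψ i p]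
    have : tup' m φ i = tup' m ψ i := congrFun h i
    rw [this]

/-! ### removing the factor `h` -/

/-- the function `1/n` -/
noncomputable def rec1 : ArithmeticFunction ℝ := ⟨fun n => 1 / (n : ℝ), by simp⟩

theorem rec1_mult : rec1.IsMultiplicative := by
  refine ⟨?_, ?_⟩
  · show 1 / ((1 : ℕ) : ℝ) = 1
    simp
  · intro m n _
    show 1 / ((m * n : ℕ) : ℝ) = 1 / (m : ℝ) * (1 / (n : ℝ))
    push_cast
    rw [one_div_mul_one_div]

open Pool.Agent.Q255.TQ (h)

theorem h_mul_sum (m : ℕ) (hm : Squarefree m) :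
    h m * ∑ e ∈ m.divisors, 1 / (e : ℝ) = 1 := by
  have h1 := rec1_mult.prodPrimeFactors_one_add_of_squarefree hm
  have h2 : ∑ e ∈ m.divisors, 1 / (e : ℝ) = ∏ p ∈ m.primeFactors, (1 + 1 / (p : ℝ)) := h1.symm
  rw [h2]
  unfold h
  rw [← prod_mul_distrib]
  refine prod_eq_one fun p hp => ?_
  have hp0 : (0 : ℝ) < p := by exact_mod_cast (Nat.prime_of_mem_primeFactors hp).pos
  field_simp

theorem h_pos (m : ℕ) : 0 < h m := by
  unfold h
  refine prod_pos fun p hp => ?_
  have hp0 : (0 : ℝ) < p := by exact_mod_cast (Nat.prime_of_mem_primeFactors hp).pos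
  positivity

theorem h_le1 (m : ℕ) : h m ≤ 1 := by
  unfold h
  refine prod_le_one (fun p _ => by positivity) fun p _ => ?_
  rw [div_le_one (by positivity)]
  linarith

theorem h_mul (a b : ℕ) (hab : a.Coprime b) : h (a * b) = h a * h b := by
  unfold h
  rw [hab.primeFactors_mul, prod_union hab.disjoint_primeFactors]

/-- the odd squarefree numbers up to `M` -/
def SF (M : ℕ) : Finset ℕ := (Icc 1 M).filter fun m => Squarefree m ∧ Odd m

theorem remove_h (K M : ℕ) :
    ∑ m ∈ SF M, (K : ℝ) ^ m.primeFactors.card / m ≤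
      (∑ e ∈ Icc 1 M, (K : ℝ) ^ e.primeFactors.card / (e : ℝ) ^ 2) *
        ∑ m ∈ SF M, (K : ℝ) ^ m.primeFactors.card * h m / m := by
  classical
  have hmem : ∀ m ∈ SF M, Squarefree m ∧ Odd m ∧ 1 ≤ m ∧ m ≤ M := by
    intro m hm
    unfold SF at hm
    rw [mem_filter, mem_Icc] at hm
    exact ⟨hm.2.1, hm.2.2, hm.1.1, hm.1.2⟩
  have e1 : ∀ m ∈ SF M, (K : ℝ) ^ m.primeFactors.card / m =
      ∑ x ∈ m.divisorsAntidiagonal, (K : ℝ) ^ x.1.primeFactors.card / (x.1 : ℝ) ^ 2 *
        h x.1 * ((K : ℝ) ^ x.2.primeFactors.card * h x.2 / x.2) := by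
    intro m hm
    obtain ⟨hsq, _, hm1, _⟩ := hmem m hm
    have h0 : (K : ℝ) ^ m.primeFactors.card / m =
        (K : ℝ) ^ m.primeFactors.card / m * (h m * ∑ e ∈ m.divisors, 1 / (e : ℝ)) := by
      rw [h_mul_sum m hsq, mul_one]
    rw [h0, ← Nat.sum_divisorsAntidiagonal (fun a _ => 1 / (a : ℝ)), mul_sum, mul_sum]
    refine sum_congr rfl fun x hx => ?_
    obtain ⟨hx1, hx2⟩ := Nat.mem_divisorsAntidiagonal.1 hx
    have hcop : Nat.Coprime x.1 x.2 := by
      rw [← hx1] at hsq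
      exact Nat.coprime_of_squarefree_mul hsq
    have hx1' : (x.1 : ℝ) ≠ 0 := by
      have : x.1 ≠ 0 := by rintro h; rw [h] at hx1; simp at hx1; omega
      exact_mod_cast this
    have hx2' : (x.2 : ℝ) ≠ 0 := by
      have : x.2 ≠ 0 := by rintro h; rw [h] at hx1; simp at hx1; omega
      exact_mod_cast this
    rw [← hx1, hcop.primeFactors_mul, card_union_of_disjoint hcop.disjoint_primeFactors,
      h_mul _ _ hcop, pow_add]
    push_cast
    field_simp
  rw [sum_congr rfl e1, ← sum_biUnion]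
  · have e2 : (∑ e ∈ Icc 1 M, (K : ℝ) ^ e.primeFactors.card / (e : ℝ) ^ 2) *
        ∑ m ∈ SF M, (K : ℝ) ^ m.primeFactors.card * h m / m =
        ∑ x ∈ Icc 1 M ×ˢ SF M, (K : ℝ) ^ x.1.primeFactors.card / (x.1 : ℝ) ^ 2 *
          ((K : ℝ) ^ x.2.primeFactors.card * h x.2 / x.2) := by
      rw [sum_product, sum_mul]
      refine sum_congr rfl fun e _ => ?_
      rw [mul_sum]
    rw [e2]
    have hnn : ∀ x : ℕ × ℕ, 0 ≤ (K : ℝ) ^ x.1.primeFactors.card / (x.1 : ℝ) ^ 2 := fun x => by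
      positivity
    have hnn2 : ∀ x : ℕ × ℕ, 0 ≤ (K : ℝ) ^ x.2.primeFactors.card * h x.2 / x.2 := fun x => by
      have := (h_pos x.2).le
      positivity
    calc _ ≤ ∑ x ∈ (SF M).biUnion fun m => m.divisorsAntidiagonal,
          (K : ℝ) ^ x.1.primeFactors.card / (x.1 : ℝ) ^ 2 *
            ((K : ℝ) ^ x.2.primeFactors.card * h x.2 / x.2) := by
          refine sum_le_sum fun x _ => ?_
          refine mul_le_mul_of_nonneg_right ?_ (hnn2 x)
          calc _ ≤ (K : ℝ) ^ x.1.primeFactors.card / (x.1 : ℝ) ^ 2 * 1 :=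
                mul_le_mul_of_nonneg_left (h_le1 _) (hnn x)
            _ = _ := mul_one _
      _ ≤ _ := by
          refine sum_le_sum_of_subset_of_nonneg ?_ fun x _ _ => mul_nonneg (hnn x) (hnn2 x)
          intro x hx
          obtain ⟨m, hm, hx⟩ := mem_biUnion.1 hx
          obtain ⟨hsq, hodd, hm1, hmM⟩ := hmem m hm
          obtain ⟨hx1, hx2⟩ := Nat.mem_divisorsAntidiagonal.1 hx
          have d1 : x.1 ∣ m := ⟨x.2, hx1.symm⟩
          have d2 : x.2 ∣ m := ⟨x.1, by rw [mul_comm]; exact hx1.symm⟩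
          rw [mem_product, mem_Icc]
          refine ⟨⟨Nat.pos_of_dvd_of_pos d1 hm1, (Nat.le_of_dvd hm1 d1).trans hmM⟩, ?_⟩
          unfold SF
          rw [mem_filter, mem_Icc]
          exact ⟨⟨Nat.pos_of_dvd_of_pos d2 hm1, (Nat.le_of_dvd hm1 d2).trans hmM⟩,
            hsq.squarefree_of_dvd d2, Odd.of_dvd_nat hodd d2⟩
  · intro a _ b _ hab
    rw [Function.onFun, disjoint_left]
    intro x hx hx'
    exact hab ((Nat.mem_divisorsAntidiagonal.1 hx).1.symm.trans
      (Nat.mem_divisorsAntidiagonal.1 hx').1)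

theorem sum_E (K : ℕ) (hK : 1 ≤ K) : ∃ E : ℝ, 0 < E ∧ ∀ M : ℕ,
    ∑ e ∈ Icc 1 M, (K : ℝ) ^ e.primeFactors.card / (e : ℝ) ^ 2 ≤ E := by
  have hKR : (1 : ℝ) ≤ K := by exact_mod_cast hK
  obtain ⟨C, hC, hp⟩ := Pool.Agent.Q163.HC.pow_omega K hKR (1 / 2) (by norm_num)
  have hs : Summable fun n : ℕ => 1 / (n : ℝ) ^ (3 / 2 : ℝ) :=
    Real.summable_one_div_nat_rpow.2 (by norm_num)
  refine ⟨C * (∑' n : ℕ, 1 / (n : ℝ) ^ (3 / 2 : ℝ)) + 1, ?_, ?_⟩
  · have : 0 ≤ ∑' n : ℕ, 1 / (n : ℝ) ^ (3 / 2 : ℝ) := tsum_nonneg fun n => by positivity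
    have h2 : 0 ≤ C * (∑' n : ℕ, 1 / (n : ℝ) ^ (3 / 2 : ℝ)) := mul_nonneg (by linarith) this
    linarith
  · intro M
    calc ∑ e ∈ Icc 1 M, (K : ℝ) ^ e.primeFactors.card / (e : ℝ) ^ 2 ≤
          ∑ e ∈ Icc 1 M, C * (1 / (e : ℝ) ^ (3 / 2 : ℝ)) := by
          refine sum_le_sum fun e he => ?_
          rw [mem_Icc] at he
          have h1 := hp e he.1 e.primeFactors (Subset.refl _)
          have he0 : (0 : ℝ) < e := by exact_mod_cast he.1
          rw [div_le_iff₀ (by positivity)]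
          have h2 : C * (1 / (e : ℝ) ^ (3 / 2 : ℝ)) * (e : ℝ) ^ 2 = C * (e : ℝ) ^ (1 / 2 : ℝ) := by
            have : (e : ℝ) ^ 2 = (e : ℝ) ^ (3 / 2 : ℝ) * (e : ℝ) ^ (1 / 2 : ℝ) := by
              rw [← Real.rpow_add he0, ← Real.rpow_natCast]
              norm_num
            rw [this]
            have h3 : (e : ℝ) ^ (3 / 2 : ℝ) ≠ 0 := (Real.rpow_pos_of_pos he0 _).ne'
            field_simp
          rw [h2]
          exact h1
      _ = C * ∑ e ∈ Icc 1 M, 1 / (e : ℝ) ^ (3 / 2 : ℝ) := by rw [mul_sum]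
      _ ≤ C * (∑' n : ℕ, 1 / (n : ℝ) ^ (3 / 2 : ℝ)) := by
          refine mul_le_mul_of_nonneg_left ?_ (by linarith)
          exact hs.sum_le_tsum _ fun n _ => by positivity
      _ ≤ _ := by linarith

/-! ### the theorem -/

theorem h_sq (m : ℕ) : h (m ^ 2) = h m := by
  unfold h
  rw [Nat.primeFactors_pow m two_ne_zero]

theorem BB_lower (k N M : ℕ) (hMN : M ^ 2 ≤ N) :
    ∑ m ∈ SF M, ((k * (k + 1) / 2 : ℕ) : ℝ) ^ m.primeFactors.card * h m / m ≤
      Pool.Agent.Q255.TQ.BB k N := by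
  classical
  have hmem : ∀ m ∈ SF M, Squarefree m ∧ Odd m ∧ 1 ≤ m ∧ m ≤ M := by
    intro m hm
    unfold SF at hm
    rw [mem_filter, mem_Icc] at hm
    exact ⟨hm.2.1, hm.2.2, hm.1.1, hm.1.2⟩
  have h1 : ∀ m ∈ SF M, ((k * (k + 1) / 2 : ℕ) : ℝ) ^ m.primeFactors.card * h m / m ≤
      ∑ t ∈ (Pool.Agent.Q255.TQ.Tu k N).filter (fun t => ∏ i, t i = m ^ 2),
        h (∏ i, t i) / Real.sqrt ((∏ i, t i : ℕ) : ℝ) := by
    intro m hm
    obtain ⟨hsq, _, hm1, hmM⟩ := hmem m hm
    have hm2 : m ^ 2 ≤ N := (Nat.pow_le_pow_left hmM 2).trans hMN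
    have h2 := tup_card k N m hsq hm2
    have h3 : ∀ t ∈ (Pool.Agent.Q255.TQ.Tu k N).filter (fun t => ∏ i, t i = m ^ 2),
        h (∏ i, t i) / Real.sqrt ((∏ i, t i : ℕ) : ℝ) = h m / m := by
      intro t ht
      rw [(mem_filter.1 ht).2, h_sq]
      congr 1
      push_cast
      exact Real.sqrt_sq (Nat.cast_nonneg m)
    rw [sum_congr rfl h3, sum_const, nsmul_eq_mul, ← mul_div_assoc]
    have h4 : ((k * (k + 1) / 2 : ℕ) : ℝ) ^ m.primeFactors.card ≤
        (((Pool.Agent.Q255.TQ.Tu k N).filter (fun t => ∏ i, t i = m ^ 2)).card : ℝ) := by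
      exact_mod_cast h2
    have h5 := (h_pos m).le
    gcongr
  refine (sum_le_sum h1).trans ?_
  rw [← sum_biUnion]
  · unfold Pool.Agent.Q255.TQ.BB
    refine sum_le_sum_of_subset_of_nonneg ?_ fun t _ _ => by
      have := (h_pos (∏ i, t i)).le
      positivity
    intro t ht
    obtain ⟨m, hm, ht⟩ := mem_biUnion.1 ht
    rw [mem_filter] at ht ⊢
    refine ⟨ht.1, m, ?_⟩
    rw [ht.2, sq]
  · intro a _ b _ hab
    rw [Function.onFun, disjoint_left]
    intro t ht ht'
    rw [mem_filter] at ht ht'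
    have : a ^ 2 = b ^ 2 := ht.2.symm.trans ht'.2
    exact hab (Nat.pow_left_injective (by norm_num : (2 : ℕ) ≠ 0) this)

theorem bbl : Pool.Agent.Q255.TQ.S_BBL := by
  classical
  intro k hk
  set K : ℕ := k * (k + 1) / 2 with hK
  have hK1 : 1 ≤ K := by
    rw [hK, Nat.le_div_iff_mul_le (by norm_num)]
    nlinarith
  obtain ⟨c, hc, hl⟩ := Pool.Agent.Q162.MB.t_LBM K hK1
  obtain ⟨E, hE, hsE⟩ := sum_E K hK1
  have hB1 : ∀ N : ℕ, 1 ≤ N → 1 ≤ Pool.Agent.Q255.TQ.BB k N := by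
    intro N hN
    have h1 := BB_lower k N 1 (by simpa using hN)
    have h2 : SF 1 = {1} := by
      unfold SF
      ext m
      simp only [mem_filter, mem_Icc, mem_singleton]
      constructor
      · rintro ⟨⟨h1, h2⟩, _⟩; omega
      · rintro rfl; exact ⟨⟨le_rfl, le_rfl⟩, squarefree_one, odd_one⟩
    rw [h2, sum_singleton] at h1
    simp only [Nat.primeFactors_one, card_empty, pow_zero, Nat.cast_one, div_one, one_mul] at h1
    have h3 : h 1 = 1 := by unfold h; simp
    rw [h3] at h1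
    exact h1
  refine ⟨min (c / (E * 4 ^ K)) (1 / 2 ^ K), by positivity, ?_⟩
  intro N hN
  have hNR : (2 : ℝ) ≤ N := by exact_mod_cast hN
  have hlog : 0 ≤ Real.log N := Real.log_nonneg (by linarith)
  rcases Nat.lt_or_ge N 4 with h4 | h4
  · have h1 : Real.log N ≤ 2 := by
      have : Real.log N ≤ N - 1 := Real.log_le_sub_one_of_pos (by linarith)
      have h5 : (N : ℝ) ≤ 3 := by exact_mod_cast (by omega : N ≤ 3)
      linarith
    calc min (c / (E * 4 ^ K)) (1 / 2 ^ K) * Real.log N ^ K ≤ (1 / 2 ^ K) * 2 ^ K := by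
          refine mul_le_mul (min_le_right _ _) (pow_le_pow_left₀ hlog h1 K) (by positivity)
            (by positivity)
      _ = 1 := by field_simp
      _ ≤ _ := hB1 N (by omega)
  · set M : ℕ := Nat.sqrt N with hM
    have hM2 : 2 ≤ M := Nat.le_sqrt.2 (by omega)
    have hMN : M ^ 2 ≤ N := by rw [sq]; exact Nat.sqrt_le N
    have hMN2 : N < (M + 1) ^ 2 := by rw [sq]; exact Nat.lt_succ_sqrt N
    have hN4 : N ≤ M ^ 4 := by
      have : (M + 1) ^ 2 ≤ M ^ 4 := by
        have h1 : M + 1 ≤ M ^ 2 := by nlinarith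
        calc (M + 1) ^ 2 ≤ (M ^ 2) ^ 2 := Nat.pow_le_pow_left h1 2
          _ = M ^ 4 := by ring
      omega
    have hMR : (2 : ℝ) ≤ M := by exact_mod_cast hM2
    have hlogM : 0 ≤ Real.log M := Real.log_nonneg (by linarith)
    have hlogN : Real.log N ≤ 4 * Real.log M := by
      have : Real.log N ≤ Real.log ((M : ℝ) ^ 4) := by
        refine Real.log_le_log (by linarith) ?_
        exact_mod_cast hN4
      rw [Real.log_pow] at this
      exact_mod_cast this
    have h1 := hl M 1 (by omega) le_rfl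
    have h2 : (Icc 1 M).filter (fun m => Squarefree m ∧ Odd m ∧ m.Coprime 1) = SF M := by
      unfold SF
      refine filter_congr fun m _ => ?_
      simp
    rw [h2] at h1
    simp only [Nat.primeFactors_one, prod_empty, inv_one, mul_one] at h1
    have h3 := remove_h K M
    have h5 := BB_lower k N M hMN
    rw [← hK] at h5
    have h6 : 0 ≤ ∑ m ∈ SF M, (K : ℝ) ^ m.primeFactors.card * h m / m :=
      sum_nonneg fun m _ => by
        have := (h_pos m).le
        positivity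
    have h7 : c * Real.log M ^ K ≤ E * Pool.Agent.Q255.TQ.BB k N := by
      calc c * Real.log M ^ K ≤ _ := h1
        _ ≤ _ := h3
        _ ≤ E * ∑ m ∈ SF M, (K : ℝ) ^ m.primeFactors.card * h m / m :=
            mul_le_mul_of_nonneg_right (hsE M) h6
        _ ≤ _ := mul_le_mul_of_nonneg_left h5 hE.le
    calc min (c / (E * 4 ^ K)) (1 / 2 ^ K) * Real.log N ^ K ≤
          c / (E * 4 ^ K) * (4 * Real.log M) ^ K := by
          refine mul_le_mul (min_le_left _ _) (pow_le_pow_left₀ hlog hlogN K) (by positivity)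
            (by positivity)
      _ = (c * Real.log M ^ K) / E := by
          rw [mul_pow]
          field_simp
      _ ≤ (E * Pool.Agent.Q255.TQ.BB k N) / E := div_le_div_of_nonneg_right h7 hE.le
      _ = Pool.Agent.Q255.TQ.BB k N := by field_simp

end Pool.Agent.Q251.TQ
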