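import Pool.Agent.Q255.TQ.Stm

set_option autoImplicit false

/-!
# Project TQ: squarefree numbers in residue classes modulo `8` coprime to `l`
-/

namespace Pool.Agent.Q251.TQ

open Finset Filter Topology MeasureTheory Pool.Agent.H306R2.RZ Pool.Agent.Q255.TQ

/-! ### counting integers -/

theorem cls_card (ρ : ℕ) (hρ : ρ < 8) (Z : ℕ) :
    ((Icc 1 Z).filter (fun m => m % 8 = ρ)).card = (Z + 8 - ρ) / 8 - if ρ = 0 then 1 else 0 := by
  induction Z with
  | zero =>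
    simp
    split_ifs <;> omega
  | succ Z ih =>
    rw [card_filter, sum_Icc_succ_top (by omega), ← card_filter, ih]
    split_ifs <;> omega

theorem cls_bound (ρ : ℕ) (hρ : ρ < 8) (Z : ℕ) :
    |(((Icc 1 Z).filter (fun m => m % 8 = ρ)).card : ℝ) - (Z : ℝ) / 8| ≤ 1 := by
  have h := cls_card ρ hρ Z
  set f := ((Icc 1 Z).filter (fun m => m % 8 = ρ)).card
  have h1 : 8 * f ≤ Z + 8 := by split_ifs at h <;> omega
  have h2 : Z ≤ 8 * f + 8 := by split_ifs at h <;> omega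
  have h3 : (8 : ℝ) * f ≤ Z + 8 := by exact_mod_cast h1
  have h4 : (Z : ℝ) ≤ 8 * f + 8 := by exact_mod_cast h2
  rw [abs_le]
  constructor <;> linarith

theorem mul_cls (p j ρ : ℕ) (hp : Odd p) (hρ : ρ < 8) :
    (p * j) % 8 = ρ ↔ j % 8 = (p * ρ) % 8 := by
  have hp2 : (p * p) % 8 = 1 := by
    obtain ⟨k, rfl⟩ := hp
    rcases Nat.even_or_odd' k with ⟨c, rfl | rfl⟩
    · have : (2 * (2 * c) + 1) * (2 * (2 * c) + 1) = 8 * (2 * c * c + c) + 1 := by ring
      rw [this]; omega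
    · have : (2 * (2 * c + 1) + 1) * (2 * (2 * c + 1) + 1) = 8 * (2 * c * c + 3 * c + 1) + 1 := by
        ring
      rw [this]; omega
  constructor
  · intro h
    have h1 : (p * ρ) % 8 = (p * (p * j)) % 8 := by
      rw [← h, Nat.mul_mod, Nat.mod_mod, ← Nat.mul_mod]
    rw [h1, ← mul_assoc, Nat.mul_mod, hp2, one_mul, Nat.mod_mod]
  · intro h
    have h1 : (p * j) % 8 = (p * (p * ρ)) % 8 := by
      rw [Nat.mul_mod p j, h, ← Nat.mul_mod]
    rw [h1, ← mul_assoc, Nat.mul_mod, hp2, one_mul, Nat.mod_mod, Nat.mod_eq_of_lt hρ]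

theorem card_p (p Z : ℕ) (hp : 0 < p) (P : ℕ → Prop) [DecidablePred P] :
    ((Icc 1 Z).filter (fun m => P m ∧ p ∣ m)).card =
      ((Icc 1 (Z / p)).filter (fun j => P (p * j))).card := by
  have h2 : (Icc 1 Z).filter (fun m => P m ∧ p ∣ m) =
      ((Icc 1 (Z / p)).filter (fun j => P (p * j))).image (fun j => p * j) := by
    ext m
    simp only [mem_filter, mem_Icc, mem_image]
    constructor
    · rintro ⟨⟨h1, h2⟩, h3, j, rfl⟩
      refine ⟨j, ⟨⟨?_, ?_⟩, h3⟩, rfl⟩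
      · rcases Nat.eq_zero_or_pos j with h | h
        · subst h; simp at h1
        · exact h
      · rw [Nat.le_div_iff_mul_le hp]; linarith [mul_comm j p]
    · rintro ⟨j, ⟨⟨h1, h2⟩, h3⟩, rfl⟩
      refine ⟨⟨Nat.mul_pos hp h1, ?_⟩, h3, dvd_mul_right _ _⟩
      rw [Nat.le_div_iff_mul_le hp] at h2
      linarith [mul_comm j p]
  rw [h2, card_image_of_injective _ (fun x y hxy => Nat.eq_of_mul_eq_mul_left hp hxy)]

theorem cnt_s (s : Finset ℕ) (hs : ∀ p ∈ s, p.Prime ∧ p ≠ 2) : ∀ ρ : ℕ, ρ < 8 → ∀ Z : ℕ,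
    |(((Icc 1 Z).filter (fun m => m % 8 = ρ ∧ ∀ p ∈ s, ¬ p ∣ m)).card : ℝ) -
      (Z : ℝ) / 8 * ∏ p ∈ s, (1 - 1 / (p : ℝ))| ≤ 2 * 2 ^ s.card - 1 := by
  classical
  induction s using Finset.induction_on with
  | empty =>
    intro ρ hρ Z
    have h := cls_bound ρ hρ Z
    simp only [notMem_empty, forall_const, and_true, prod_empty, mul_one,
      card_empty, pow_zero, IsEmpty.forall_iff]
    linarith
  | insert p s hp ih =>
    intro ρ hρ Z
    have hpp := (hs p (mem_insert_self p s)).1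
    have hp2 := (hs p (mem_insert_self p s)).2
    have hodd : Odd p := hpp.odd_of_ne_two hp2
    have hs' : ∀ q ∈ s, q.Prime ∧ q ≠ 2 := fun q hq => hs q (mem_insert_of_mem hq)
    have ih1 := ih hs' ρ hρ Z
    have ih2 := ih hs' ((p * ρ) % 8) (Nat.mod_lt _ (by norm_num)) (Z / p)
    have e1 : ((Icc 1 Z).filter (fun m => m % 8 = ρ ∧ ∀ q ∈ s, ¬ q ∣ m)).card =
        ((Icc 1 Z).filter (fun m => m % 8 = ρ ∧ ∀ q ∈ insert p s, ¬ q ∣ m)).card +
        ((Icc 1 Z).filter (fun m => (m % 8 = ρ ∧ ∀ q ∈ s, ¬ q ∣ m) ∧ p ∣ m)).card := by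
      rw [← card_union_of_disjoint]
      · congr 1
        ext m
        simp only [mem_union, mem_filter, mem_insert, forall_eq_or_imp]
        tauto
      · rw [disjoint_left]
        intro m hm hm'
        simp only [mem_filter, mem_insert, forall_eq_or_imp] at hm hm'
        exact hm.2.2.1 hm'.2.2
    have e2 : ((Icc 1 Z).filter (fun m => (m % 8 = ρ ∧ ∀ q ∈ s, ¬ q ∣ m) ∧ p ∣ m)).card =
        ((Icc 1 (Z / p)).filter (fun m => m % 8 = (p * ρ) % 8 ∧ ∀ q ∈ s, ¬ q ∣ m)).card := by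
      rw [card_p p Z hpp.pos (fun m => m % 8 = ρ ∧ ∀ q ∈ s, ¬ q ∣ m)]
      congr 1
      refine filter_congr fun j _ => ?_
      rw [mul_cls p j ρ hodd hρ]
      refine and_congr_right fun _ => forall₂_congr fun q hq => not_congr ?_
      constructor
      · intro h
        rcases (hs' q hq).1.dvd_mul.1 h with h | h
        · exfalso
          rw [Nat.prime_dvd_prime_iff_eq (hs' q hq).1 hpp] at h
          exact hp (h ▸ hq)
        · exact h
      · intro h
        exact h.mul_left p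
    rw [e2] at e1
    have e3 : (((Icc 1 Z).filter (fun m => m % 8 = ρ ∧ ∀ q ∈ insert p s, ¬ q ∣ m)).card : ℝ) =
        (((Icc 1 Z).filter (fun m => m % 8 = ρ ∧ ∀ q ∈ s, ¬ q ∣ m)).card : ℝ) -
        (((Icc 1 (Z / p)).filter (fun m => m % 8 = (p * ρ) % 8 ∧ ∀ q ∈ s, ¬ q ∣ m)).card : ℝ) := by
      rw [e1]; push_cast; ring
    rw [e3, prod_insert hp, card_insert_of_notMem hp, pow_succ]
    set a : ℝ := (((Icc 1 Z).filter (fun m => m % 8 = ρ ∧ ∀ q ∈ s, ¬ q ∣ m)).card : ℝ)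
    set b : ℝ := (((Icc 1 (Z / p)).filter
      (fun m => m % 8 = (p * ρ) % 8 ∧ ∀ q ∈ s, ¬ q ∣ m)).card : ℝ)
    set P : ℝ := ∏ p ∈ s, (1 - 1 / (p : ℝ)) with hP
    have hP0 : 0 ≤ P := by
      refine prod_nonneg fun q hq => ?_
      have : (1 : ℝ) ≤ q := by exact_mod_cast (hs' q hq).1.one_lt.le
      have h3 : 1 / (q : ℝ) ≤ 1 := by rw [div_le_one (by linarith)]; exact this
      linarith
    have hP1 : P ≤ 1 := by
      refine prod_le_one (fun q hq => ?_) fun q hq => ?_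
      · have : (1 : ℝ) ≤ q := by exact_mod_cast (hs' q hq).1.one_lt.le
        have h3 : 1 / (q : ℝ) ≤ 1 := by rw [div_le_one (by linarith)]; exact this
        linarith
      · have : 0 ≤ 1 / (q : ℝ) := by positivity
        linarith
    have hp0 : (0 : ℝ) < p := by exact_mod_cast hpp.pos
    have h5 : ((Z / p : ℕ) : ℝ) ≤ Z / p := Nat.cast_div_le
    have h6 : (Z : ℝ) / p ≤ ((Z / p : ℕ) : ℝ) + 1 := by
      rw [div_le_iff₀ hp0]
      have h7 : Z < (Z / p + 1) * p := by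
        have := Nat.lt_div_mul_add (a := Z) (b := p) hpp.pos
        nlinarith
      have h8 : (Z : ℝ) < (((Z / p : ℕ) : ℝ) + 1) * p := by exact_mod_cast h7
      exact h8.le
    have e4 : a - b - (Z : ℝ) / 8 * ((1 - 1 / (p : ℝ)) * P) =
        (a - (Z : ℝ) / 8 * P) - (b - ((Z / p : ℕ) : ℝ) / 8 * P) +
          ((Z : ℝ) / p - ((Z / p : ℕ) : ℝ)) / 8 * P := by ring
    rw [e4]
    have h9 : |((Z : ℝ) / p - ((Z / p : ℕ) : ℝ)) / 8 * P| ≤ 1 := by
      rw [abs_of_nonneg (mul_nonneg (by linarith) hP0)]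
      calc ((Z : ℝ) / p - ((Z / p : ℕ) : ℝ)) / 8 * P ≤ 1 * 1 := by
            refine mul_le_mul (by linarith) hP1 hP0 zero_le_one
        _ = 1 := one_mul 1
    have h10 := abs_add_le ((a - (Z : ℝ) / 8 * P) - (b - ((Z / p : ℕ) : ℝ) / 8 * P))
      (((Z : ℝ) / p - ((Z / p : ℕ) : ℝ)) / 8 * P)
    have h11 := abs_sub (a - (Z : ℝ) / 8 * P) (b - ((Z / p : ℕ) : ℝ) / 8 * P)
    linarith

/-! ### the sum of `μ(a)/a²` over the integers without prime factors in a finite set -/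

/-- the Moebius function as a real function -/
noncomputable def mu (d : ℕ) : ℝ := ((ArithmeticFunction.moebius d : ℤ) : ℝ)

theorem abs_mu_le (d : ℕ) : |mu d| ≤ 1 := by
  have := ArithmeticFunction.abs_moebius_le_one (n := d)
  unfold mu
  exact_mod_cast this

theorem mu_zero : mu 0 = 0 := by simp [mu]

/-- `∑ μ(d)/d² = 6/π²` -/
theorem moebius_hasSum : HasSum (fun d : ℕ => mu d * (1 / (d : ℝ) ^ 2)) (6 / Real.pi ^ 2) := by
  have h2 : (1 : ℝ) < (2 : ℂ).re := by norm_num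
  have hs : LSeriesSummable (fun n => ((ArithmeticFunction.moebius n : ℤ) : ℂ)) 2 :=
    ArithmeticFunction.LSeriesSummable_moebius_iff.mpr h2
  have hL := ArithmeticFunction.LSeries_zeta_mul_Lseries_moebius h2
  rw [ArithmeticFunction.LSeries_zeta_eq_riemannZeta h2, riemannZeta_two] at hL
  have hpi : (Real.pi : ℂ) ≠ 0 := by exact_mod_cast Real.pi_ne_zero
  have hval : LSeries (fun n => ((ArithmeticFunction.moebius n : ℤ) : ℂ)) 2 =
      6 / (Real.pi : ℂ) ^ 2 := by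
    field_simp
    field_simp at hL
    linear_combination hL
  have hsum := hs.LSeriesHasSum
  rw [hval] at hsum
  have h3 : HasSum (fun d : ℕ => ((mu d * (1 / (d : ℝ) ^ 2) : ℝ) : ℂ))
      (((6 / Real.pi ^ 2 : ℝ)) : ℂ) := by
    have e : (((6 / Real.pi ^ 2 : ℝ)) : ℂ) = 6 / (Real.pi : ℂ) ^ 2 := by push_cast; ring
    rw [e]
    unfold LSeriesHasSum at hsum
    refine hsum.congr_fun ?_
    intro d
    rcases eq_or_ne d 0 with rfl | hd
    · simp [mu]
    · rw [LSeries.term_of_ne_zero hd]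
      unfold mu
      push_cast
      rw [show ((d : ℂ) ^ (2 : ℂ)) = (d : ℂ) ^ (2 : ℕ) by norm_cast]
      ring
  exact Complex.hasSum_ofReal.mp h3

open Classical in
/-- the terms of the sum -/
noncomputable def F (s : Finset ℕ) (a : ℕ) : ℝ :=
  if ∀ p ∈ s, ¬ p ∣ a then mu a * (1 / (a : ℝ) ^ 2) else 0

theorem F_abs (s : Finset ℕ) (a : ℕ) : |F s a| ≤ 1 / (a : ℝ) ^ 2 := by
  unfold F
  split_ifs
  · rw [abs_mul, abs_of_nonneg (by positivity : (0 : ℝ) ≤ 1 / (a : ℝ) ^ 2)]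
    calc |mu a| * (1 / (a : ℝ) ^ 2) ≤ 1 * (1 / (a : ℝ) ^ 2) :=
          mul_le_mul_of_nonneg_right (abs_mu_le a) (by positivity)
      _ = _ := one_mul _
  · rw [abs_zero]; positivity

theorem F_summable (s : Finset ℕ) : Summable (F s) := by
  refine Summable.of_norm_bounded (g := fun a : ℕ => 1 / (a : ℝ) ^ 2) ?_ fun a => ?_
  · exact Real.summable_one_div_nat_pow.2 (by norm_num)
  · exact F_abs s a

theorem F_split (s : Finset ℕ) (hs : ∀ q ∈ s, q.Prime) (p : ℕ) (hp : p.Prime) (hps : p ∉ s)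
    (b : ℕ) : F s (p * b) = - (1 / (p : ℝ) ^ 2) * F (insert p s) b := by
  classical
  have hiff : (∀ q ∈ s, ¬ q ∣ p * b) ↔ (∀ q ∈ s, ¬ q ∣ b) := by
    refine forall₂_congr fun q hq => not_congr ?_
    constructor
    · intro h
      rcases (hs q hq).dvd_mul.1 h with h | h
      · exfalso
        rw [Nat.prime_dvd_prime_iff_eq (hs q hq) hp] at h
        exact hps (h ▸ hq)
      · exact h
    · intro h
      exact h.mul_left p
  unfold F
  by_cases h1 : ∀ q ∈ s, ¬ q ∣ b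
  · rw [if_pos (hiff.2 h1)]
    by_cases h2 : p ∣ b
    · have h3 : ¬ (∀ q ∈ insert p s, ¬ q ∣ b) := fun h => h p (mem_insert_self p s) h2
      rw [if_neg h3, mul_zero]
      have h4 : ¬ Squarefree (p * b) := by
        intro h5
        have := h5 p (mul_dvd_mul_left p h2)
        rw [Nat.isUnit_iff] at this
        exact hp.one_lt.ne' this
      have : mu (p * b) = 0 := by
        unfold mu
        rw [ArithmeticFunction.moebius_eq_zero_of_not_squarefree h4]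
        simp
      rw [this, zero_mul]
    · have h3 : ∀ q ∈ insert p s, ¬ q ∣ b := by
        intro q hq
        rcases mem_insert.1 hq with rfl | hq
        · exact h2
        · exact h1 q hq
      rw [if_pos h3]
      have hcop : Nat.Coprime p b := (Nat.Prime.coprime_iff_not_dvd hp).2 h2
      have : mu (p * b) = - mu b := by
        unfold mu
        rw [ArithmeticFunction.isMultiplicative_moebius.map_mul_of_coprime hcop,
          ArithmeticFunction.moebius_apply_prime hp]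
        push_cast
        ring
      rw [this]
      push_cast
      have hp0 : (p : ℝ) ≠ 0 := by exact_mod_cast hp.ne_zero
      by_cases hb : (b : ℝ) = 0
      · rw [hb]; simp
      · field_simp
  · rw [if_neg (fun h => h1 (hiff.1 h)), if_neg, mul_zero]
    intro h
    exact h1 fun q hq => h q (mem_insert_of_mem hq)

theorem F_hasSum (s : Finset ℕ) (hs : ∀ q ∈ s, q.Prime) :
    HasSum (F s) (6 / Real.pi ^ 2 * ∏ p ∈ s, (1 - 1 / (p : ℝ) ^ 2)⁻¹) := by
  classical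
  induction s using Finset.induction_on with
  | empty =>
    have e : F ∅ = fun d : ℕ => mu d * (1 / (d : ℝ) ^ 2) := by
      funext d
      unfold F
      rw [if_pos]
      simp
    rw [e, prod_empty, mul_one]
    exact moebius_hasSum
  | insert p s hp ih =>
    have hpp := hs p (mem_insert_self p s)
    have hs' : ∀ q ∈ s, q.Prime := fun q hq => hs q (mem_insert_of_mem hq)
    have h1 := ih hs'
    have hT := (F_summable (insert p s)).hasSum
    set T := ∑' a, F (insert p s) a with hTd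
    -- the part with `p ∣ a`
    have hinj : Function.Injective (fun b : ℕ => p * b) :=
      fun x y hxy => Nat.eq_of_mul_eq_mul_left hpp.pos hxy
    set G : ℕ → ℝ := fun a => if p ∣ a then F s a else 0 with hG
    have hG1 : HasSum G (- (1 / (p : ℝ) ^ 2) * T) := by
      have h2 : HasSum (G ∘ fun b : ℕ => p * b) (- (1 / (p : ℝ) ^ 2) * T) := by
        have h3 := hT.mul_left (- (1 / (p : ℝ) ^ 2))
        refine h3.congr_fun ?_
        intro b
        simp only [hG, Function.comp_apply, if_pos (dvd_mul_right p b)]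
        exact (F_split s hs' p hpp hp b)
      rwa [hinj.hasSum_iff] at h2
      intro a ha
      simp only [hG]
      rw [if_neg]
      rintro ⟨b, rfl⟩
      exact ha ⟨b, rfl⟩
    have hadd := hT.add hG1
    have hF : (fun a => F (insert p s) a + G a) = F s := by
      funext a
      simp only [hG]
      by_cases hd : p ∣ a
      · rw [if_pos hd]
        have : F (insert p s) a = 0 := by
          unfold F
          rw [if_neg]
          intro h
          exact h p (mem_insert_self p s) hd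
        rw [this, zero_add]
      · rw [if_neg hd, add_zero]
        unfold F
        have : (∀ q ∈ insert p s, ¬ q ∣ a) ↔ (∀ q ∈ s, ¬ q ∣ a) := by
          simp only [mem_insert, forall_eq_or_imp]
          exact ⟨fun h => h.2, fun h => ⟨hd, h⟩⟩
        by_cases h2 : ∀ q ∈ s, ¬ q ∣ a
        · rw [if_pos (this.2 h2), if_pos h2]
        · rw [if_neg (fun h => h2 (this.1 h)), if_neg h2]
    rw [hF] at hadd
    have heq := h1.unique hadd
    have hp2 : (2 : ℝ) ≤ p := by exact_mod_cast hpp.two_le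
    have hpos : 0 < 1 - 1 / (p : ℝ) ^ 2 := by
      have : 1 / (p : ℝ) ^ 2 < 1 := by
        rw [div_lt_one (by positivity)]
        nlinarith
      linarith
    have hTe : T = 6 / Real.pi ^ 2 * ∏ q ∈ insert p s, (1 - 1 / (q : ℝ) ^ 2)⁻¹ := by
      rw [prod_insert hp]
      have h5 : T * (1 - 1 / (p : ℝ) ^ 2) = 6 / Real.pi ^ 2 * ∏ q ∈ s, (1 - 1 / (q : ℝ) ^ 2)⁻¹ := by
        rw [heq]; ring
      have h6 : T = (T * (1 - 1 / (p : ℝ) ^ 2)) * (1 - 1 / (p : ℝ) ^ 2)⁻¹ := by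
        rw [mul_assoc, mul_inv_cancel₀ hpos.ne', mul_one]
      rw [h6, h5]
      ring
    rw [← hTe]
    exact hT

theorem F_tail (s : Finset ℕ) (S : ℝ) (hS : HasSum (F s) S) (R : ℕ) (hR : 1 ≤ R) :
    |S - ∑ a ∈ range (R + 1), F s a| ≤ 1 / (R : ℝ) := by
  have h1 : Tendsto (fun M => ∑ d ∈ range M, F s d) atTop (𝓝 S) := hS.tendsto_sum_nat
  have h2 : Tendsto (fun M => |∑ d ∈ range M, F s d - ∑ d ∈ range (R + 1), F s d|) atTop
      (𝓝 |S - ∑ d ∈ range (R + 1), F s d|) :=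
    (h1.sub_const _).abs
  refine le_of_tendsto h2 ?_
  filter_upwards [eventually_ge_atTop (R + 1)] with M hM
  rw [← sum_range_add_sum_Ico _ hM, add_sub_cancel_left]
  refine (abs_sum_le_sum_abs _ _).trans ?_
  have h3 : ∑ d ∈ Ico (R + 1) M, |F s d| ≤ ∑ d ∈ Ioc R M, ((d : ℝ) ^ 2)⁻¹ := by
    calc ∑ d ∈ Ico (R + 1) M, |F s d| ≤ ∑ d ∈ Ico (R + 1) M, ((d : ℝ) ^ 2)⁻¹ := by
          refine sum_le_sum fun d _ => ?_
          rw [← one_div]
          exact F_abs s d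
      _ ≤ ∑ d ∈ Ioc R M, ((d : ℝ) ^ 2)⁻¹ := by
          refine sum_le_sum_of_subset_of_nonneg ?_ fun _ _ _ => by positivity
          intro d hd
          rw [mem_Ico] at hd
          rw [mem_Ioc]
          omega
  refine h3.trans ((sum_Ioc_inv_sq_le_sub (by omega) (by omega)).trans ?_)
  rw [one_div]
  have : (0 : ℝ) ≤ (M : ℝ)⁻¹ := by positivity
  linarith

/-! ### the theorem -/

theorem prod_id (s : Finset ℕ) (hs : ∀ q ∈ s, q.Prime) :
    (∏ p ∈ s, (1 - 1 / (p : ℝ))) * ∏ p ∈ s, (1 - 1 / (p : ℝ) ^ 2)⁻¹ =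
      ∏ p ∈ s, ((p : ℝ) / (p + 1)) := by
  rw [← prod_mul_distrib]
  refine prod_congr rfl fun p hp => ?_
  have hp2 : (2 : ℝ) ≤ p := by exact_mod_cast (hs p hp).two_le
  have h1 : (p : ℝ) ≠ 0 := by linarith
  have h2 : (p : ℝ) + 1 ≠ 0 := by linarith
  have h3 : (p : ℝ) ^ 2 - 1 ≠ 0 := by nlinarith
  have h4 : (1 - 1 / (p : ℝ) ^ 2) = ((p : ℝ) ^ 2 - 1) / (p : ℝ) ^ 2 := by field_simp
  rw [h4, inv_div]
  field_simp
  ring

theorem pow_le_div (l : ℕ) (hl : l ≠ 0) (s : Finset ℕ) (hs : s ⊆ l.primeFactors) :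
    2 ^ s.card ≤ l.divisors.card := by
  calc 2 ^ s.card ≤ 2 ^ l.primeFactors.card := Nat.pow_le_pow_right (by norm_num) (card_le_card hs)
    _ ≤ l.divisors.card := by
        rw [Nat.card_divisors hl, ← prod_const]
        refine prod_le_prod' fun p hp => ?_
        have : 0 < l.factorization p :=
          Nat.Prime.factorization_pos_of_dvd (Nat.prime_of_mem_primeFactors hp) hl
            (Nat.dvd_of_mem_primeFactors hp)
        omega

theorem cl8 (hSQM : S_SQM) : S_CL8 := by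
  classical
  refine ⟨3, by norm_num, ?_⟩
  intro ρ hρ Y l hl hev
  have hρ8 : ρ < 8 := by
    simp only [Pool.Agent.Q255.TQ.cl8, mem_insert, mem_singleton] at hρ
    omega
  set s : Finset ℕ := l.primeFactors.erase 2 with hs
  have hsp : ∀ q ∈ s, q.Prime ∧ q ≠ 2 := fun q hq =>
    ⟨Nat.prime_of_mem_primeFactors (mem_of_mem_erase hq), ne_of_mem_erase hq⟩
  have hl0 : l ≠ 0 := by omega
  -- coprimality to `l`
  have hcop : ∀ m : ℕ, m % 8 = ρ → (m.Coprime l ↔ ∀ p ∈ s, ¬ p ∣ m) := by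
    intro m hm
    constructor
    · intro h p hp hpm
      have h1 := Nat.dvd_of_mem_primeFactors (mem_of_mem_erase hp)
      have h2 := Nat.dvd_gcd hpm h1
      rw [h] at h2
      exact (hsp p hp).1.one_lt.ne' (Nat.dvd_one.1 h2)
    · intro h
      rw [Nat.coprime_iff_gcd_eq_one] at *
      by_contra hc
      obtain ⟨p, hp, hpg⟩ := Nat.exists_prime_and_dvd hc
      have h1 : p ∣ m := hpg.trans (Nat.gcd_dvd_left m l)
      have h2 : p ∣ l := hpg.trans (Nat.gcd_dvd_right m l)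
      by_cases hp2 : p = 2
      · subst hp2
        rcases Nat.even_or_odd ρ with he | ho
        · exact (Nat.not_even_iff_odd.2 (hev he)) (even_iff_two_dvd.2 h2)
        · obtain ⟨k, hk⟩ := ho
          omega
      · exact h p (mem_erase.2 ⟨hp2, Nat.mem_primeFactors.2 ⟨hp, h2, hl0⟩⟩) h1
  -- the count is `TT` at `s = 1`
  have e0 : (((sqf Y).filter (fun m => m % 8 = ρ ∧ m.Coprime l)).card : ℝ) = Pool.Agent.Q255.TQ.TT ρ Y 1 l := by
    unfold Pool.Agent.Q255.TQ.TT js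
    simp
  have hjs : ∀ m : ℕ, js (m : ℤ) 1 = 1 := by
    intro m; unfold js; simp
  have hcnt := cnt_s s hsp ρ hρ8
  set P : ℝ := ∏ p ∈ s, (1 - 1 / (p : ℝ)) with hP
  have hP0 : 0 ≤ P := by
    refine prod_nonneg fun q hq => ?_
    have : (1 : ℝ) ≤ q := by exact_mod_cast (hsp q hq).1.one_lt.le
    have h3 : 1 / (q : ℝ) ≤ 1 := by rw [div_le_one (by linarith)]; exact this
    linarith
  have hP1 : P ≤ 1 := by
    refine prod_le_one (fun q hq => ?_) fun q hq => ?_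
    · have : (1 : ℝ) ≤ q := by exact_mod_cast (hsp q hq).1.one_lt.le
      have h3 : 1 / (q : ℝ) ≤ 1 := by rw [div_le_one (by linarith)]; exact this
      linarith
    · have : 0 ≤ 1 / (q : ℝ) := by positivity
      linarith
  set D : ℝ := (l.divisors.card : ℝ) with hD
  have hpD : (2 : ℝ) ^ s.card ≤ D := by
    have := pow_le_div l hl0 s (erase_subset _ _)
    rw [hD]
    exact_mod_cast this
  have hpD1 : (1 : ℝ) ≤ 2 ^ s.card := one_le_pow₀ (by norm_num)
  rcases Nat.eq_zero_or_pos Y with hY | hY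
  · subst hY
    simp [sqf]
  set R : ℕ := Nat.sqrt Y with hR
  have hR1 : 1 ≤ R := Nat.sqrt_pos.2 hY
  have hR2 : R ^ 2 ≤ Y := by rw [sq]; exact Nat.sqrt_le Y
  have hR3 : Y < (R + 1) ^ 2 := by rw [sq]; exact Nat.lt_succ_sqrt Y
  -- the expansion
  set S2 : Finset ℕ := insert 2 s with hS2
  have hS2p : ∀ q ∈ S2, q.Prime := by
    intro q hq
    rcases mem_insert.1 hq with rfl | hq
    · exact Nat.prime_two
    · exact (hsp q hq).1
  have h2s : 2 ∉ s := notMem_erase 2 _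
  have hco2 : ∀ a : ℕ, (a.Coprime (2 * l * 1) ↔ ∀ p ∈ S2, ¬ p ∣ a) := by
    intro a
    rw [mul_one]
    constructor
    · intro h p hp hpa
      have h1 : p ∣ 2 * l := by
        rcases mem_insert.1 hp with rfl | hp
        · exact dvd_mul_right _ _
        · exact (Nat.dvd_of_mem_primeFactors (mem_of_mem_erase hp)).mul_left 2
      have h2 := Nat.dvd_gcd hpa h1
      rw [h] at h2
      exact (hS2p p hp).one_lt.ne' (Nat.dvd_one.1 h2)
    · intro h
      rw [Nat.coprime_iff_gcd_eq_one]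
      by_contra hc
      obtain ⟨p, hp, hpg⟩ := Nat.exists_prime_and_dvd hc
      have h1 : p ∣ a := hpg.trans (Nat.gcd_dvd_left a _)
      have h2 : p ∣ 2 * l := hpg.trans (Nat.gcd_dvd_right a _)
      refine h p ?_ h1
      rcases hp.dvd_mul.1 h2 with h2 | h2
      · rw [(Nat.prime_dvd_prime_iff_eq hp Nat.prime_two).1 h2]
        exact mem_insert_self 2 s
      · by_cases hp2 : p = 2
        · rw [hp2]; exact mem_insert_self 2 s
        · exact mem_insert_of_mem (mem_erase.2 ⟨hp2, Nat.mem_primeFactors.2 ⟨hp, h2, hl0⟩⟩)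
  have hexp := (hSQM ρ hρ Y 1 l odd_one hl).1
  have e1 : Pool.Agent.Q255.TQ.TT ρ Y 1 l = ∑ a ∈ (Icc 1 R).filter (fun a => ∀ p ∈ S2, ¬ p ∣ a),
      mu a * (((Icc 1 (Y / a ^ 2)).filter (fun m => m % 8 = ρ ∧ ∀ p ∈ s, ¬ p ∣ m)).card : ℝ) := by
    rw [hexp]
    have e2 : ∀ a ∈ (Icc 1 Y).filter (fun a => a.Coprime (2 * l * 1)),
        ((ArithmeticFunction.moebius a : ℤ) : ℝ) *
          ∑ m ∈ (Icc 1 (Y / a ^ 2)).filter (fun m => m % 8 = ρ ∧ m.Coprime l), js m 1 =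
        mu a * (((Icc 1 (Y / a ^ 2)).filter
          (fun m => m % 8 = ρ ∧ ∀ p ∈ s, ¬ p ∣ m)).card : ℝ) := by
      intro a _
      have e3 : (Icc 1 (Y / a ^ 2)).filter (fun m => m % 8 = ρ ∧ m.Coprime l) =
          (Icc 1 (Y / a ^ 2)).filter (fun m => m % 8 = ρ ∧ ∀ p ∈ s, ¬ p ∣ m) := by
        refine filter_congr fun m _ => ?_
        constructor
        · rintro ⟨h1, h2⟩
          exact ⟨h1, (hcop m h1).1 h2⟩
        · rintro ⟨h1, h2⟩
          exact ⟨h1, (hcop m h1).2 h2⟩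
      rw [e3, sum_congr rfl (fun m _ => hjs m), sum_const, nsmul_eq_mul, mul_one]
      rfl
    rw [sum_congr rfl e2, filter_congr (fun a _ => hco2 a)]
    symm
    refine sum_subset (filter_subset_filter _ (Icc_subset_Icc_right ?_)) ?_
    · nlinarith
    · intro a ha ha'
      rw [mem_filter, mem_Icc] at ha
      have hRa : R < a := by
        by_contra hc
        exact ha' (mem_filter.2 ⟨mem_Icc.2 ⟨ha.1.1, not_lt.1 hc⟩, ha.2⟩)
      have h0 : Y / a ^ 2 = 0 := Nat.div_eq_of_lt (by nlinarith)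
      rw [h0]
      simp
  have hsum := F_hasSum S2 hS2p
  set S : ℝ := 6 / Real.pi ^ 2 * ∏ p ∈ S2, (1 - 1 / (p : ℝ) ^ 2)⁻¹ with hS
  have htail := F_tail S2 S hsum R hR1
  have e4 : ∑ a ∈ range (R + 1), F S2 a =
      ∑ a ∈ (Icc 1 R).filter (fun a => ∀ p ∈ S2, ¬ p ∣ a), mu a * (1 / (a : ℝ) ^ 2) := by
    rw [sum_filter]
    have : range (R + 1) = insert 0 (Icc 1 R) := by
      ext a; simp only [mem_range, mem_insert, mem_Icc]; omega
    rw [this, sum_insert (by simp)]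
    have h0 : F S2 0 = 0 := by
      unfold F
      split_ifs
      · rw [mu_zero, zero_mul]
      · rfl
    rw [h0, zero_add]
    rfl
  rw [e4] at htail
  -- the main term
  have hmain : (Y : ℝ) / 8 * P * S = Y / Real.pi ^ 2 * (if Odd l then h l else 3 / 2 * h l) := by
    have h1 : (if Odd l then h l else 3 / 2 * h l) = ∏ p ∈ s, ((p : ℝ) / (p + 1)) := by
      unfold h
      by_cases ho : Odd l
      · rw [if_pos ho, hs, erase_eq_of_notMem]
        intro h2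
        have := Nat.dvd_of_mem_primeFactors h2
        exact (Nat.not_even_iff_odd.2 ho) (even_iff_two_dvd.2 this)
      · rw [if_neg ho]
        have h2 : 2 ∈ l.primeFactors :=
          Nat.mem_primeFactors.2 ⟨Nat.prime_two, even_iff_two_dvd.1 (Nat.not_odd_iff_even.1 ho), hl0⟩
        rw [← mul_prod_erase _ _ h2]
        push_cast
        ring
    rw [h1, ← prod_id s (fun q hq => (hsp q hq).1), hS, hS2, prod_insert h2s]
    have hpi : Real.pi ≠ 0 := Real.pi_ne_zero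
    rw [← hP]
    generalize ∏ p ∈ s, (1 - 1 / (p : ℝ) ^ 2)⁻¹ = A
    push_cast
    field_simp
    norm_num
    left
    ring
  rw [e0, e1, ← hmain]
  set U : Finset ℕ := (Icc 1 R).filter (fun a => ∀ p ∈ S2, ¬ p ∣ a) with hU
  have hUc : (U.card : ℝ) ≤ R := by
    have : U.card ≤ (Icc 1 R).card := card_filter_le _ _
    rw [Nat.card_Icc, Nat.add_sub_cancel] at this
    exact_mod_cast this
  have hterm : ∀ a ∈ U, |mu a * (((Icc 1 (Y / a ^ 2)).filter
      (fun m => m % 8 = ρ ∧ ∀ p ∈ s, ¬ p ∣ m)).card : ℝ) -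
        (Y : ℝ) / 8 * P * (mu a * (1 / (a : ℝ) ^ 2))| ≤ 2 * D - 1 / 2 := by
    intro a ha
    rw [hU, mem_filter, mem_Icc] at ha
    have ha0 : 0 < a ^ 2 := by
      have := ha.1.1
      positivity
    have ha0R : (0 : ℝ) < ((a ^ 2 : ℕ) : ℝ) := by exact_mod_cast ha0
    have h1 := hcnt (Y / a ^ 2)
    set q : ℝ := (((Icc 1 (Y / a ^ 2)).filter
      (fun m => m % 8 = ρ ∧ ∀ p ∈ s, ¬ p ∣ m)).card : ℝ)
    have h5 : ((Y / a ^ 2 : ℕ) : ℝ) ≤ Y / ((a ^ 2 : ℕ) : ℝ) := Nat.cast_div_le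
    have h6 : (Y : ℝ) / ((a ^ 2 : ℕ) : ℝ) ≤ ((Y / a ^ 2 : ℕ) : ℝ) + 1 := by
      rw [div_le_iff₀ ha0R]
      have h7 : Y < (Y / a ^ 2 + 1) * a ^ 2 := by
        have := Nat.lt_div_mul_add (a := Y) (b := a ^ 2) ha0
        nlinarith
      have h8 : (Y : ℝ) < (((Y / a ^ 2 : ℕ) : ℝ) + 1) * ((a ^ 2 : ℕ) : ℝ) := by exact_mod_cast h7
      exact h8.le
    have e5 : mu a * q - (Y : ℝ) / 8 * P * (mu a * (1 / (a : ℝ) ^ 2)) =
        mu a * ((q - ((Y / a ^ 2 : ℕ) : ℝ) / 8 * P) -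
          ((Y : ℝ) / ((a ^ 2 : ℕ) : ℝ) - ((Y / a ^ 2 : ℕ) : ℝ)) / 8 * P) := by
      push_cast
      ring
    rw [e5, abs_mul]
    have h9 : |((Y : ℝ) / ((a ^ 2 : ℕ) : ℝ) - ((Y / a ^ 2 : ℕ) : ℝ)) / 8 * P| ≤ 1 / 8 := by
      rw [abs_of_nonneg (mul_nonneg (by linarith) hP0)]
      calc ((Y : ℝ) / ((a ^ 2 : ℕ) : ℝ) - ((Y / a ^ 2 : ℕ) : ℝ)) / 8 * P ≤ 1 / 8 * 1 := by
            refine mul_le_mul (by linarith) hP1 hP0 (by norm_num)
        _ = 1 / 8 := mul_one _
    have h10 := abs_sub (q - ((Y / a ^ 2 : ℕ) : ℝ) / 8 * P)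
      (((Y : ℝ) / ((a ^ 2 : ℕ) : ℝ) - ((Y / a ^ 2 : ℕ) : ℝ)) / 8 * P)
    calc |mu a| * |(q - ((Y / a ^ 2 : ℕ) : ℝ) / 8 * P) -
          ((Y : ℝ) / ((a ^ 2 : ℕ) : ℝ) - ((Y / a ^ 2 : ℕ) : ℝ)) / 8 * P| ≤
          1 * |(q - ((Y / a ^ 2 : ℕ) : ℝ) / 8 * P) -
          ((Y : ℝ) / ((a ^ 2 : ℕ) : ℝ) - ((Y / a ^ 2 : ℕ) : ℝ)) / 8 * P| :=
          mul_le_mul_of_nonneg_right (abs_mu_le a) (abs_nonneg _)
      _ ≤ 2 * D - 1 / 2 := by linarith
  have hfin : |∑ a ∈ U, mu a * (((Icc 1 (Y / a ^ 2)).filter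
      (fun m => m % 8 = ρ ∧ ∀ p ∈ s, ¬ p ∣ m)).card : ℝ) -
        (Y : ℝ) / 8 * P * ∑ a ∈ U, mu a * (1 / (a : ℝ) ^ 2)| ≤ R * (2 * D - 1 / 2) := by
    rw [mul_sum, ← sum_sub_distrib]
    refine (abs_sum_le_sum_abs _ _).trans ((sum_le_sum hterm).trans ?_)
    rw [sum_const, nsmul_eq_mul]
    exact mul_le_mul_of_nonneg_right hUc (by linarith)
  have hRR : (0 : ℝ) < R := by exact_mod_cast hR1
  have hRR1 : (1 : ℝ) ≤ R := by exact_mod_cast hR1
  have hY4 : (Y : ℝ) ≤ 4 * R * R := by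
    have : Y ≤ 4 * R * R := by nlinarith
    exact_mod_cast this
  have ht2 : |(Y : ℝ) / 8 * P * (∑ a ∈ U, mu a * (1 / (a : ℝ) ^ 2)) - (Y : ℝ) / 8 * P * S| ≤
      R / 2 := by
    rw [← mul_sub, abs_mul, abs_sub_comm,
      abs_of_nonneg (mul_nonneg (by positivity) hP0 : 0 ≤ (Y : ℝ) / 8 * P)]
    calc (Y : ℝ) / 8 * P * |S - ∑ a ∈ U, mu a * (1 / (a : ℝ) ^ 2)| ≤
          (4 * R * R / 8 * 1) * (1 / R) := by
          gcongr
      _ = R / 2 := by field_simp; norm_num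
  have hRY : (R : ℝ) ≤ Real.sqrt Y := by
    rw [Real.le_sqrt (by positivity) (by positivity)]
    exact_mod_cast hR2
  have hD1 : 1 ≤ D := by linarith
  have h12 := abs_add_le (∑ a ∈ U, mu a * (((Icc 1 (Y / a ^ 2)).filter
      (fun m => m % 8 = ρ ∧ ∀ p ∈ s, ¬ p ∣ m)).card : ℝ) -
        (Y : ℝ) / 8 * P * ∑ a ∈ U, mu a * (1 / (a : ℝ) ^ 2))
    ((Y : ℝ) / 8 * P * (∑ a ∈ U, mu a * (1 / (a : ℝ) ^ 2)) - (Y : ℝ) / 8 * P * S)
  have e6 : (∑ a ∈ U, mu a * (((Icc 1 (Y / a ^ 2)).filter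
      (fun m => m % 8 = ρ ∧ ∀ p ∈ s, ¬ p ∣ m)).card : ℝ) -
        (Y : ℝ) / 8 * P * ∑ a ∈ U, mu a * (1 / (a : ℝ) ^ 2)) +
    ((Y : ℝ) / 8 * P * (∑ a ∈ U, mu a * (1 / (a : ℝ) ^ 2)) - (Y : ℝ) / 8 * P * S) =
    ∑ a ∈ U, mu a * (((Icc 1 (Y / a ^ 2)).filter
      (fun m => m % 8 = ρ ∧ ∀ p ∈ s, ¬ p ∣ m)).card : ℝ) - (Y : ℝ) / 8 * P * S := by ring
  rw [e6] at h12
  refine h12.trans ((add_le_add hfin ht2).trans ?_)
  calc (R : ℝ) * (2 * D - 1 / 2) + R / 2 = 2 * D * R := by ring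
    _ ≤ 3 * D * Real.sqrt Y := by gcongr; norm_num

end Pool.Agent.Q251.TQ
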