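import Pool.Agent.Q255.TQ.Stm

set_option autoImplicit false

/-!
# Project TQ: the diagonal and the main term
-/

namespace Pool.Agent.Q251.TQ

open Finset Filter Topology MeasureTheory Pool.Agent.H306R2.RZ Pool.Agent.Q255.TQ
open Pool.Agent.Q122.FM (kron IsFund LHalf IG kr2)

/-! ### Abel summation with a monotone weight -/

theorem abel_aux (b w : ℕ → ℝ) (E : ℝ) (X : ℕ)
    (hw : ∀ n, 1 ≤ n → w n ≤ w (n + 1))
    (hb : ∀ n, n ≤ X → |∑ m ∈ Icc 1 n, b m| ≤ E) :
    ∀ n, 1 ≤ n → n ≤ X → |∑ m ∈ Icc 1 n, b m * w m - (∑ m ∈ Icc 1 n, b m) * w n| ≤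
      E * (w n - w 1) := by
  intro n hn
  induction n, hn using Nat.le_induction with
  | base =>
    intro _
    simp
  | succ n hn ih =>
    intro hX
    have h1 := ih (by omega)
    have h2 := hb n (by omega)
    rw [sum_Icc_succ_top (by omega), sum_Icc_succ_top (by omega)]
    have h3 : ∑ m ∈ Icc 1 n, b m * w m + b (n + 1) * w (n + 1) -
        (∑ m ∈ Icc 1 n, b m + b (n + 1)) * w (n + 1) =
        (∑ m ∈ Icc 1 n, b m * w m - (∑ m ∈ Icc 1 n, b m) * w n) -
          (∑ m ∈ Icc 1 n, b m) * (w (n + 1) - w n) := by ring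
    rw [h3]
    have h4 : 0 ≤ w (n + 1) - w n := sub_nonneg.2 (hw n hn)
    calc _ ≤ |∑ m ∈ Icc 1 n, b m * w m - (∑ m ∈ Icc 1 n, b m) * w n| +
          |(∑ m ∈ Icc 1 n, b m) * (w (n + 1) - w n)| := abs_sub _ _
      _ ≤ E * (w n - w 1) + E * (w (n + 1) - w n) := by
          refine add_le_add h1 ?_
          rw [abs_mul, abs_of_nonneg h4]
          exact mul_le_mul_of_nonneg_right h2 h4
      _ = E * (w (n + 1) - w 1) := by ring

theorem abel (a w : ℕ → ℝ) (c E B : ℝ) (X : ℕ) (hX : 1 ≤ X)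
    (hw : ∀ n, 1 ≤ n → w n ≤ w (n + 1)) (h0 : ∀ n, 1 ≤ n → 0 ≤ w n) (hB : w X ≤ B)
    (ha : ∀ n, n ≤ X → |∑ m ∈ Icc 1 n, a m - c * n| ≤ E) :
    |∑ m ∈ Icc 1 X, a m * w m - c * ∑ m ∈ Icc 1 X, w m| ≤ 2 * B * E := by
  have hE : 0 ≤ E := le_trans (abs_nonneg _) (ha 0 (Nat.zero_le _))
  have hb : ∀ n, n ≤ X → |∑ m ∈ Icc 1 n, (a m - c)| ≤ E := by
    intro n hn
    have := ha n hn
    rw [sum_sub_distrib, sum_const, Nat.card_Icc, nsmul_eq_mul]
    have e : ((n + 1 - 1 : ℕ) : ℝ) * c = c * n := by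
      rw [Nat.add_sub_cancel]; ring
    rw [e]
    exact this
  have h1 := abel_aux (fun m => a m - c) w E X hw hb X hX le_rfl
  have h2 := hb X le_rfl
  have e : ∑ m ∈ Icc 1 X, a m * w m - c * ∑ m ∈ Icc 1 X, w m =
      (∑ m ∈ Icc 1 X, (a m - c) * w m - (∑ m ∈ Icc 1 X, (a m - c)) * w X) +
        (∑ m ∈ Icc 1 X, (a m - c)) * w X := by
    have : ∑ m ∈ Icc 1 X, (a m - c) * w m =
        ∑ m ∈ Icc 1 X, a m * w m - c * ∑ m ∈ Icc 1 X, w m := by
      rw [mul_sum, ← sum_sub_distrib]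
      exact sum_congr rfl fun m _ => by ring
    rw [this]; ring
  rw [e]
  have hwX := h0 X hX
  have hw1 := h0 1 le_rfl
  calc _ ≤ |∑ m ∈ Icc 1 X, (a m - c) * w m - (∑ m ∈ Icc 1 X, (a m - c)) * w X| +
        |(∑ m ∈ Icc 1 X, (a m - c)) * w X| := abs_add_le _ _
    _ ≤ E * (w X - w 1) + E * w X := by
        refine add_le_add h1 ?_
        rw [abs_mul, abs_of_nonneg hwX]
        exact mul_le_mul_of_nonneg_right h2 hwX
    _ ≤ 2 * B * E := by nlinarith [mul_nonneg hE hw1, mul_le_mul_of_nonneg_left hB hE]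

/-! ### the sum and the integral of a monotone function -/

theorem sum_int (G : ℝ → ℝ) (B : ℝ) (X : ℕ) (hX : 1 ≤ X)
    (hmono : ∀ x y : ℝ, 0 < x → x ≤ y → G x ≤ G y) (h0 : ∀ x : ℝ, 0 < x → 0 ≤ G x)
    (hB : G X ≤ B) :
    |∑ n ∈ Icc 1 X, G n - ∫ x in Set.Ioc (0 : ℝ) X, G x| ≤ B := by
  classical
  set H : ℝ → ℝ := fun x => if 0 < x then G x else 0 with hH
  have hHm : Monotone H := by
    intro x y hxy
    simp only [hH]
    by_cases hx : 0 < x
    · rw [if_pos hx, if_pos (lt_of_lt_of_le hx hxy)]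
      exact hmono x y hx hxy
    · rw [if_neg hx]
      split_ifs with hy
      · exact h0 y hy
      · exact le_rfl
  have e1 : ∫ x in Set.Ioc (0 : ℝ) X, G x = ∫ x in (0 : ℝ)..(0 + (X : ℕ)), H x := by
    rw [zero_add, intervalIntegral.integral_of_le (by positivity)]
    refine setIntegral_congr_fun measurableSet_Ioc ?_
    intro x hx
    simp only [hH]
    rw [if_pos hx.1]
  have e2 : ∑ n ∈ Icc 1 X, G n = ∑ i ∈ range X, H (0 + ((i + 1 : ℕ) : ℝ)) := by
    rw [range_eq_Ico, sum_Ico_add' (fun i : ℕ => H (0 + (i : ℝ))) 0 X 1]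
    have : Ico (0 + 1) (X + 1) = Icc 1 X := by
      ext n; simp only [mem_Ico, mem_Icc]; omega
    rw [this]
    refine sum_congr rfl fun n hn => ?_
    have hn1 : (0 : ℝ) < n := by exact_mod_cast (mem_Icc.1 hn).1
    simp only [hH, zero_add]
    rw [if_pos hn1]
  have h1 := (hHm.monotoneOn (Set.Icc (0 : ℝ) (0 + (X : ℕ)))).integral_le_sum
  have h2 := (hHm.monotoneOn (Set.Icc (0 : ℝ) (0 + (X : ℕ)))).sum_le_integral
  have h3 : ∑ i ∈ range X, H (0 + ((i + 1 : ℕ) : ℝ)) - ∑ i ∈ range X, H (0 + (i : ℝ)) =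
      H (0 + (X : ℝ)) - H (0 + ((0 : ℕ) : ℝ)) := by
    rw [← sum_sub_distrib, sum_range_sub (fun i : ℕ => H (0 + (i : ℝ))) X]
  have h4 : H (0 + (X : ℝ)) = G X := by
    have : (0 : ℝ) < X := by exact_mod_cast hX
    simp only [hH, zero_add]
    rw [if_pos this]
  have h5 : H (0 + ((0 : ℕ) : ℝ)) = 0 := by
    simp [hH]
  rw [h4, h5] at h3
  rw [e1, e2, abs_le]
  constructor <;> linarith

/-! ### exchange of the sums -/

theorem DG_swap (ε : ℤ) (X N k : ℕ) (w : (Fin k → ℕ) → ℕ → ℝ) :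
    DG ε X N k w = ∑ t ∈ (Tu k N).filter (fun t => IsSquare (∏ i, t i)),
      (∑ n ∈ (Fs ε X).filter (fun n => n.Coprime (∏ i, t i)), w t n) /
        Real.sqrt ((∏ i, t i : ℕ) : ℝ) := by
  classical
  unfold DG
  have h1 : ∀ n ∈ Fs ε X, ∑ t ∈ (Tu k N).filter
      (fun t => IsSquare (∏ i, t i) ∧ n.Coprime (∏ i, t i)),
        w t n / Real.sqrt ((∏ i, t i : ℕ) : ℝ) =
      ∑ t ∈ (Tu k N).filter (fun t => IsSquare (∏ i, t i)),
        if n.Coprime (∏ i, t i) then w t n / Real.sqrt ((∏ i, t i : ℕ) : ℝ) else 0 := by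
    intro n _
    rw [← sum_filter, filter_filter]
  rw [sum_congr rfl h1, sum_comm]
  refine sum_congr rfl fun t _ => ?_
  rw [← sum_filter, sum_div]

/-- the sum over the tuples of the error terms -/
theorem tup (hDIV : S_DIV) (hBBU : S_BBU) (k A : ℕ) (hk : 1 ≤ k) (δ : ℝ) (hδ : 0 < δ) :
    ∃ C : ℝ, 0 < C ∧ ∀ X N : ℕ, 1 ≤ X → 1 ≤ N → N ≤ X ^ A →
      ∑ t ∈ (Tu k N).filter (fun t => IsSquare (∏ i, t i)),
        ((∏ i, t i).divisors.card : ℝ) * (Real.sqrt X + 1) / Real.sqrt ((∏ i, t i : ℕ) : ℝ) ≤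
      C * (X : ℝ) ^ (1 / 2 + δ) := by
  classical
  set K : ℕ := k * (k + 1) / 2 with hK
  have hkA : (0 : ℝ) < 2 * ((A : ℝ) + 1) * k := by
    have : (1 : ℝ) ≤ k := by exact_mod_cast hk
    positivity
  have hK1 : (0 : ℝ) < 2 * ((K : ℝ) + 1) := by positivity
  obtain ⟨C1, hC1, hdiv⟩ := hDIV (δ / (2 * ((A : ℝ) + 1) * k)) (div_pos hδ hkA)
  obtain ⟨C2, hC2, hbb⟩ := hBBU k hk
  set η : ℝ := δ / (2 * ((K : ℝ) + 1)) with hη
  have hη0 : 0 < η := div_pos hδ hK1
  refine ⟨C1 * (1 + C2 * ((A : ℝ) / η) ^ K) * 2, by positivity, ?_⟩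
  intro X N hX hN hNX
  have hXR : (1 : ℝ) ≤ X := by exact_mod_cast hX
  have hX0 : (0 : ℝ) < X := by linarith
  have hNR : (1 : ℝ) ≤ N := by exact_mod_cast hN
  have hNXR : (N : ℝ) ≤ (X : ℝ) ^ A := by exact_mod_cast hNX
  -- the divisor function
  have hd : ∀ t ∈ (Tu k N).filter (fun t => IsSquare (∏ i, t i)),
      ((∏ i, t i).divisors.card : ℝ) ≤ C1 * (X : ℝ) ^ (δ / 2) := by
    intro t ht
    have ht1 : ∀ i, 1 ≤ t i ∧ t i ≤ N := by
      intro i
      have := (Fintype.mem_piFinset.1 (mem_filter.1 ht).1) i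
      exact mem_Icc.1 this
    have hM1 : 1 ≤ ∏ i, t i := Nat.one_le_iff_ne_zero.2
      (prod_ne_zero_iff.2 fun i _ => by have := (ht1 i).1; omega)
    have hM2 : ∏ i, t i ≤ N ^ k := by
      calc ∏ i, t i ≤ ∏ _i : Fin k, N := prod_le_prod' fun i _ => (ht1 i).2
        _ = N ^ k := by rw [prod_const, card_univ, Fintype.card_fin]
    have hM3 : ((∏ i, t i : ℕ) : ℝ) ≤ (X : ℝ) ^ (((A : ℝ) + 1) * k) := by
      calc ((∏ i, t i : ℕ) : ℝ) ≤ (N : ℝ) ^ k := by exact_mod_cast hM2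
        _ ≤ ((X : ℝ) ^ A) ^ k := by gcongr
        _ = (X : ℝ) ^ ((A : ℝ) * k) := by
            rw [← pow_mul, ← Real.rpow_natCast]; push_cast; rfl
        _ ≤ (X : ℝ) ^ (((A : ℝ) + 1) * k) := by
            refine Real.rpow_le_rpow_of_exponent_le hXR ?_
            have : (0 : ℝ) ≤ k := by positivity
            nlinarith
    refine (hdiv _ hM1).trans ?_
    refine mul_le_mul_of_nonneg_left ?_ (by linarith)
    calc ((∏ i, t i : ℕ) : ℝ) ^ (δ / (2 * ((A : ℝ) + 1) * k)) ≤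
          ((X : ℝ) ^ (((A : ℝ) + 1) * k)) ^ (δ / (2 * ((A : ℝ) + 1) * k)) := by
          refine Real.rpow_le_rpow (by positivity) hM3 (div_pos hδ hkA).le
      _ = (X : ℝ) ^ (δ / 2) := by
          rw [← Real.rpow_mul hX0.le]
          congr 1
          have h1 : ((A : ℝ) + 1) ≠ 0 := by positivity
          have h2 : (k : ℝ) ≠ 0 := by
            have : (1 : ℝ) ≤ k := by exact_mod_cast hk
            linarith
          field_simp
  -- the sum of 1 / sqrt
  have hs : ∑ t ∈ (Tu k N).filter (fun t => IsSquare (∏ i, t i)),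
      1 / Real.sqrt ((∏ i, t i : ℕ) : ℝ) ≤ (1 + C2 * ((A : ℝ) / η) ^ K) * (X : ℝ) ^ (δ / 2) := by
    have hX2 : 1 ≤ (X : ℝ) ^ (δ / 2) := Real.one_le_rpow hXR (by linarith)
    have hA0 : 0 ≤ C2 * ((A : ℝ) / η) ^ K := by positivity
    rcases Nat.lt_or_ge N 2 with h | h
    · have hN1 : N = 1 := by omega
      subst hN1
      have hsub : (Tu k 1).filter (fun t => IsSquare (∏ i, t i)) ⊆ {fun _ => 1} := by
        intro t ht
        rw [mem_singleton]
        funext i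
        have := mem_Icc.1 ((Fintype.mem_piFinset.1 (mem_filter.1 ht).1) i)
        omega
      calc _ ≤ ∑ t ∈ ({fun _ => 1} : Finset (Fin k → ℕ)),
            1 / Real.sqrt ((∏ i, t i : ℕ) : ℝ) :=
            sum_le_sum_of_subset_of_nonneg hsub fun _ _ _ => by positivity
        _ = 1 := by simp
        _ ≤ _ := by nlinarith
    · refine (hbb N h).trans ?_
      have hlogN : Real.log N ≤ A * Real.log X := by
        rw [← Real.log_pow]
        exact Real.log_le_log (by linarith) hNXR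
      have hlogN0 : 0 ≤ Real.log N := Real.log_nonneg hNR
      have hlogX : Real.log X ≤ (X : ℝ) ^ η / η := Real.log_le_rpow_div hX0.le hη0
      have h3 : Real.log N ^ K ≤ (((A : ℝ) / η) ^ K) * (X : ℝ) ^ (δ / 2) := by
        calc Real.log N ^ K ≤ ((A : ℝ) * ((X : ℝ) ^ η / η)) ^ K := by
              refine pow_le_pow_left₀ hlogN0 ?_ K
              exact hlogN.trans (mul_le_mul_of_nonneg_left hlogX (by positivity))
          _ = ((A : ℝ) / η) ^ K * (X : ℝ) ^ (η * K) := by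
              rw [Real.rpow_mul hX0.le, Real.rpow_natCast, ← mul_pow]
              congr 1
              ring
          _ ≤ ((A : ℝ) / η) ^ K * (X : ℝ) ^ (δ / 2) := by
              refine mul_le_mul_of_nonneg_left ?_ (by positivity)
              refine Real.rpow_le_rpow_of_exponent_le hXR ?_
              rw [hη, div_mul_eq_mul_div, div_le_div_iff₀ hK1 (by norm_num)]
              have : (0 : ℝ) ≤ K := by positivity
              nlinarith
      calc C2 * Real.log N ^ K ≤ C2 * ((((A : ℝ) / η) ^ K) * (X : ℝ) ^ (δ / 2)) :=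
            mul_le_mul_of_nonneg_left h3 hC2.le
        _ ≤ (1 + C2 * ((A : ℝ) / η) ^ K) * (X : ℝ) ^ (δ / 2) := by
            have : 0 ≤ (X : ℝ) ^ (δ / 2) := by positivity
            nlinarith
  have hsq : Real.sqrt X + 1 ≤ 2 * (X : ℝ) ^ (1 / 2 : ℝ) := by
    rw [Real.sqrt_eq_rpow]
    have : 1 ≤ (X : ℝ) ^ (1 / 2 : ℝ) := Real.one_le_rpow hXR (by norm_num)
    linarith
  have hsplit : (X : ℝ) ^ (1 / 2 + δ) = (X : ℝ) ^ (1 / 2 : ℝ) * ((X : ℝ) ^ (δ / 2) * (X : ℝ) ^ (δ / 2)) := by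
    rw [← Real.rpow_add hX0, ← Real.rpow_add hX0]
    congr 1
    ring
  calc _ ≤ ∑ t ∈ (Tu k N).filter (fun t => IsSquare (∏ i, t i)),
        (C1 * (X : ℝ) ^ (δ / 2)) * (Real.sqrt X + 1) *
          (1 / Real.sqrt ((∏ i, t i : ℕ) : ℝ)) := by
        refine sum_le_sum fun t ht => ?_
        rw [mul_one_div]
        have := hd t ht
        gcongr
    _ = (C1 * (X : ℝ) ^ (δ / 2)) * (Real.sqrt X + 1) *
        ∑ t ∈ (Tu k N).filter (fun t => IsSquare (∏ i, t i)),
          (1 / Real.sqrt ((∏ i, t i : ℕ) : ℝ)) := by rw [mul_sum]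
    _ ≤ (C1 * (X : ℝ) ^ (δ / 2)) * (2 * (X : ℝ) ^ (1 / 2 : ℝ)) *
        ((1 + C2 * ((A : ℝ) / η) ^ K) * (X : ℝ) ^ (δ / 2)) := by
        have hC10 : 0 ≤ C1 := by linarith
        gcongr
    _ = _ := by rw [hsplit]; ring

theorem h_nonneg (l : ℕ) : 0 ≤ h l := by
  unfold h
  exact prod_nonneg fun p _ => by positivity

theorem h_le_one (l : ℕ) : h l ≤ 1 := by
  unfold h
  refine prod_le_one (fun p _ => by positivity) fun p _ => ?_
  rw [div_le_one (by positivity)]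
  linarith

theorem Fs_sum (ε : ℤ) (Y M : ℕ) :
    (((Fs ε Y).filter (fun n => n.Coprime M)).card : ℝ) =
      ∑ m ∈ Icc 1 Y, (open Classical in
        if IsFund (ε * (m : ℤ)) ∧ m.Coprime M then (1 : ℝ) else 0) := by
  classical
  rw [← sum_filter, sum_const, nsmul_eq_mul, mul_one]
  unfold Fs
  rw [filter_filter]

theorem Fs_wsum (ε : ℤ) (Y M : ℕ) (w : ℕ → ℝ) :
    ∑ n ∈ (Fs ε Y).filter (fun n => n.Coprime M), w n =
      ∑ m ∈ Icc 1 Y, (open Classical in
        if IsFund (ε * (m : ℤ)) ∧ m.Coprime M then (1 : ℝ) else 0) * w m := by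
  classical
  unfold Fs
  rw [filter_filter, sum_filter]
  refine sum_congr rfl fun m _ => ?_
  split_ifs <;> simp

theorem dgm (hCNT : S_CNT) (hVP : S_VP) (hDIV : S_DIV) (hBBU : S_BBU) : S_DGM := by
  classical
  intro k A hk δ hδ
  obtain ⟨C0, hC0, hcnt⟩ := hCNT
  obtain ⟨C3, hC3, htup⟩ := tup hDIV hBBU k (A + 1) hk δ hδ
  refine ⟨(2 * 2 ^ k * C0 + 2 ^ k) * C3, by positivity, ?_⟩
  intro ε hε X hX
  have hXR : (1 : ℝ) ≤ X := by exact_mod_cast hX
  have hX0 : (0 : ℝ) < X := by linarith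
  have hpow : (1 : ℝ) ≤ 2 ^ k := one_le_pow₀ (by norm_num)
  have hpi : 3 / Real.pi ^ 2 ≤ 1 := by
    rw [div_le_one (by positivity)]
    nlinarith [Real.pi_gt_three]
  have hpi0 : 0 ≤ 3 / Real.pi ^ 2 := by positivity
  constructor
  · -- the weighted sum
    have hpar : par ε = 0 ∨ par ε = 1 := by unfold par; split_ifs <;> simp
    obtain ⟨hV1, hV2, _⟩ := hVP (par ε) hpar
    have hX1 : X ≤ X ^ (A + 1) := Nat.le_self_pow (by omega) X
    have key := htup X X hX hX hX1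
    rw [DG_swap]
    unfold MM
    rw [mul_sum, ← sum_sub_distrib]
    refine (abs_sum_le_sum_abs _ _).trans ?_
    have hterm : ∀ t ∈ (Tu k X).filter (fun t => IsSquare (∏ i, t i)),
        |(∑ n ∈ (Fs ε X).filter (fun n => n.Coprime (∏ i, t i)), wt ε k t n) /
            Real.sqrt ((∏ i, t i : ℕ) : ℝ) -
          3 / Real.pi ^ 2 * (h (∏ i, t i) / Real.sqrt ((∏ i, t i : ℕ) : ℝ) *
            ∫ x in Set.Ioc (0 : ℝ) X, ∏ i, V (par ε) ((t i : ℝ) / Real.sqrt x))| ≤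
        (2 * 2 ^ k * C0 + 2 ^ k) * (((∏ i, t i).divisors.card : ℝ) * (Real.sqrt X + 1) /
          Real.sqrt ((∏ i, t i : ℕ) : ℝ)) := by
      intro t ht
      have ht1 : ∀ i, 1 ≤ t i ∧ t i ≤ X := by
        intro i
        exact mem_Icc.1 ((Fintype.mem_piFinset.1 (mem_filter.1 ht).1) i)
      set M : ℕ := ∏ i, t i with hM
      have hM1 : 1 ≤ M := Nat.one_le_iff_ne_zero.2
        (prod_ne_zero_iff.2 fun i _ => by have := (ht1 i).1; omega)
      have hMR : (1 : ℝ) ≤ M := by exact_mod_cast hM1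
      have hsM : 0 < Real.sqrt (M : ℝ) := Real.sqrt_pos.2 (by linarith)
      set G : ℝ → ℝ := fun x => ∏ i, V (par ε) ((t i : ℝ) / Real.sqrt x) with hG
      have hti : ∀ i, (0 : ℝ) < t i := fun i => by exact_mod_cast (ht1 i).1
      have hG0 : ∀ x : ℝ, 0 < x → 0 ≤ G x := by
        intro x hx
        refine prod_nonneg fun i _ => (hV1 _ ?_).1.le
        exact div_pos (hti i) (Real.sqrt_pos.2 hx)
      have hGm : ∀ x y : ℝ, 0 < x → x ≤ y → G x ≤ G y := by
        intro x y hx hxy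
        refine prod_le_prod (fun i _ => (hV1 _ (div_pos (hti i) (Real.sqrt_pos.2 hx))).1.le)
          fun i _ => ?_
        refine hV2 _ _ (div_pos (hti i) (Real.sqrt_pos.2 (lt_of_lt_of_le hx hxy))) ?_
        have h1 : 0 < Real.sqrt x := Real.sqrt_pos.2 hx
        have h2 : Real.sqrt x ≤ Real.sqrt y := Real.sqrt_le_sqrt hxy
        have h3 : 0 ≤ (t i : ℝ) := (hti i).le
        gcongr
      have hGB : G X ≤ 2 ^ k := by
        calc G X ≤ ∏ _i : Fin k, (2 : ℝ) := by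
              refine prod_le_prod (fun i _ =>
                (hV1 _ (div_pos (hti i) (Real.sqrt_pos.2 hX0))).1.le) fun i _ => ?_
              exact (hV1 _ (div_pos (hti i) (Real.sqrt_pos.2 hX0))).2
          _ = 2 ^ k := by rw [prod_const, card_univ, Fintype.card_fin]
      have hdM : (1 : ℝ) ≤ (M.divisors.card : ℝ) := by
        have : 0 < M.divisors.card := card_pos.2 ⟨1, Nat.one_mem_divisors.2 (by omega)⟩
        exact_mod_cast this
      have hE : ∀ n, n ≤ X → |∑ m ∈ Icc 1 n,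
          (if IsFund (ε * (m : ℤ)) ∧ m.Coprime M then (1 : ℝ) else 0) -
            3 / Real.pi ^ 2 * h M * n| ≤ C0 * M.divisors.card * (Real.sqrt X + 1) := by
        intro n hn
        have h1 := hcnt ε hε n M hM1
        rw [Fs_sum] at h1
        have h2 : (n : ℝ) ≤ X := by exact_mod_cast hn
        have h3 : Real.sqrt n ≤ Real.sqrt X := Real.sqrt_le_sqrt h2
        rw [show 3 / Real.pi ^ 2 * (n : ℝ) * h M = 3 / Real.pi ^ 2 * h M * n by ring] at h1
        refine h1.trans ?_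
        gcongr
      have hA := abel (fun m => if IsFund (ε * (m : ℤ)) ∧ m.Coprime M then (1 : ℝ) else 0)
        (fun n => G n) (3 / Real.pi ^ 2 * h M) (C0 * M.divisors.card * (Real.sqrt X + 1)) (2 ^ k)
        X hX (fun n hn => hGm _ _ (by exact_mod_cast hn) (by push_cast; linarith))
        (fun n hn => hG0 _ (by exact_mod_cast hn)) hGB hE
      have hI := sum_int G (2 ^ k) X hX hGm hG0 hGB
      have e0 : ∑ n ∈ (Fs ε X).filter (fun n => n.Coprime M), wt ε k t n =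
          ∑ m ∈ Icc 1 X, (if IsFund (ε * (m : ℤ)) ∧ m.Coprime M then (1 : ℝ) else 0) * G m :=
        Fs_wsum ε X M _
      rw [e0]
      have hh0 := h_nonneg M
      have hh1 := h_le_one M
      have hch : 3 / Real.pi ^ 2 * h M ≤ 1 := by
        calc 3 / Real.pi ^ 2 * h M ≤ 1 * 1 := by gcongr
          _ = 1 := one_mul 1
      have hch0 : 0 ≤ 3 / Real.pi ^ 2 * h M := mul_nonneg hpi0 hh0
      have e1 : (∑ m ∈ Icc 1 X,
          (if IsFund (ε * (m : ℤ)) ∧ m.Coprime M then (1 : ℝ) else 0) * G m) /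
            Real.sqrt (M : ℝ) -
          3 / Real.pi ^ 2 * (h M / Real.sqrt (M : ℝ) * ∫ x in Set.Ioc (0 : ℝ) X, G x) =
          ((∑ m ∈ Icc 1 X,
            (if IsFund (ε * (m : ℤ)) ∧ m.Coprime M then (1 : ℝ) else 0) * G m -
              3 / Real.pi ^ 2 * h M * ∑ m ∈ Icc 1 X, G m) +
            3 / Real.pi ^ 2 * h M * (∑ m ∈ Icc 1 X, G m - ∫ x in Set.Ioc (0 : ℝ) X, G x)) /
              Real.sqrt (M : ℝ) := by
        field_simp
        ring
      rw [e1, abs_div, abs_of_pos hsM, ← mul_div_assoc]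
      refine div_le_div_of_nonneg_right ?_ hsM.le
      refine (abs_add_le _ _).trans ?_
      rw [abs_mul (3 / Real.pi ^ 2 * h M), abs_of_nonneg hch0]
      have h5 : 3 / Real.pi ^ 2 * h M *
          |∑ m ∈ Icc 1 X, G m - ∫ x in Set.Ioc (0 : ℝ) X, G x| ≤ 1 * 2 ^ k :=
        mul_le_mul hch hI (abs_nonneg _) zero_le_one
      have hs1 : 0 ≤ Real.sqrt (X : ℝ) := Real.sqrt_nonneg _
      have h6 : (1 : ℝ) * 1 ≤ (M.divisors.card : ℝ) * (Real.sqrt X + 1) :=
        mul_le_mul hdM (by linarith) zero_le_one (by linarith)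
      have h7 : (2 : ℝ) ^ k * 1 ≤ 2 ^ k * ((M.divisors.card : ℝ) * (Real.sqrt X + 1)) :=
        mul_le_mul_of_nonneg_left (by linarith) (by positivity)
      calc _ ≤ 2 * 2 ^ k * (C0 * M.divisors.card * (Real.sqrt X + 1)) + 1 * 2 ^ k :=
            add_le_add hA h5
        _ ≤ _ := by linarith
    refine (sum_le_sum hterm).trans ?_
    rw [← mul_sum, mul_assoc (2 * 2 ^ k * C0 + 2 ^ k)]
    exact mul_le_mul_of_nonneg_left key (by positivity)
  · -- the unweighted sum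
    intro N hN hNX
    have hX1 : N ≤ X ^ (A + 1) := hNX.trans (Nat.pow_le_pow_right hX (by omega))
    have key := htup X N hX hN hX1
    rw [DG_swap]
    unfold Pool.Agent.Q255.TQ.BB
    rw [mul_sum, ← sum_sub_distrib]
    refine (abs_sum_le_sum_abs _ _).trans ?_
    have hterm : ∀ t ∈ (Tu k N).filter (fun t => IsSquare (∏ i, t i)),
        |(∑ n ∈ (Fs ε X).filter (fun n => n.Coprime (∏ i, t i)), (1 : ℝ)) /
            Real.sqrt ((∏ i, t i : ℕ) : ℝ) -
          3 / Real.pi ^ 2 * X * (h (∏ i, t i) / Real.sqrt ((∏ i, t i : ℕ) : ℝ))| ≤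
        C0 * (((∏ i, t i).divisors.card : ℝ) * (Real.sqrt X + 1) /
          Real.sqrt ((∏ i, t i : ℕ) : ℝ)) := by
      intro t ht
      have ht1 : ∀ i, 1 ≤ t i ∧ t i ≤ N := by
        intro i
        exact mem_Icc.1 ((Fintype.mem_piFinset.1 (mem_filter.1 ht).1) i)
      set M : ℕ := ∏ i, t i with hM
      have hM1 : 1 ≤ M := Nat.one_le_iff_ne_zero.2
        (prod_ne_zero_iff.2 fun i _ => by have := (ht1 i).1; omega)
      have hMR : (1 : ℝ) ≤ M := by exact_mod_cast hM1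
      have hsM : 0 < Real.sqrt (M : ℝ) := Real.sqrt_pos.2 (by linarith)
      have h1 := hcnt ε hε X M hM1
      rw [sum_const, nsmul_eq_mul, mul_one]
      have e1 : (((Fs ε X).filter (fun n => n.Coprime M)).card : ℝ) / Real.sqrt (M : ℝ) -
          3 / Real.pi ^ 2 * X * (h M / Real.sqrt (M : ℝ)) =
          ((((Fs ε X).filter (fun n => n.Coprime M)).card : ℝ) -
            3 / Real.pi ^ 2 * X * h M) / Real.sqrt (M : ℝ) := by ring
      rw [e1, abs_div, abs_of_pos hsM, ← mul_div_assoc]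
      refine div_le_div_of_nonneg_right ?_ hsM.le
      rw [← mul_assoc]
      exact h1
    refine (sum_le_sum hterm).trans ?_
    rw [← mul_sum]
    have hs0 : 0 ≤ ∑ t ∈ (Tu k N).filter (fun t => IsSquare (∏ i, t i)),
        ((∏ i, t i).divisors.card : ℝ) * (Real.sqrt X + 1) /
          Real.sqrt ((∏ i, t i : ℕ) : ℝ) := sum_nonneg fun t _ => by positivity
    calc _ ≤ (2 * 2 ^ k * C0 + 2 ^ k) * ∑ t ∈ (Tu k N).filter (fun t => IsSquare (∏ i, t i)),
          ((∏ i, t i).divisors.card : ℝ) * (Real.sqrt X + 1) /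
            Real.sqrt ((∏ i, t i : ℕ) : ℝ) := by
          refine mul_le_mul_of_nonneg_right ?_ hs0
          nlinarith
      _ ≤ _ := by
          rw [mul_assoc (2 * 2 ^ k * C0 + 2 ^ k)]
          exact mul_le_mul_of_nonneg_left key (by positivity)

end Pool.Agent.Q251.TQ
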